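import Mathlib

/-!
# FCQ : the factorial conjecture for quadratic polynomials (MP_410f3c_al) : decaying elements

`K` is a field with a derivation `D`, `x z = 1`, `D x = - x ^ 2` (think of `K = ℂ((z))`, `D = d/dz`, `x = 1/z`),
`R` a noetherian subalgebra of `K` of functions regular at `x = 0`.
-/

set_option autoImplicit false

namespace Pool.Agent.FCQ

/-- The field, the derivation and the ring of scalars. -/
structure Ctx (K : Type) [Field K] [Algebra ℂ K] where
  D : Derivation ℂ K K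
  R : Subalgebra ℂ K
  x : K
  z : K
  hx : x ∈ R
  hxz : x * z = 1
  hDx : D x = -x ^ 2
  hR1 : ∀ r ∈ R, ∃ c : ℂ, ∃ r' ∈ R, r = algebraMap ℂ K c + x * r'
  hR2 : ∀ r ∈ R, ∃ r' ∈ R, D r = x ^ 2 * r'
  hN : IsNoetherianRing R
  hz : z ∉ R

/-- A generator with its exponential `β`, its exponent `t` and its rank. -/
structure Gen (K : Type) where
  e : K
  β : ℂ
  t : ℝ
  rk : ℕ

variable {K : Type} [Field K] [Algebra ℂ K] (S : Ctx K)

/-- The lattice spanned by a set of generators. -/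
def Lam (T : Set (Gen K)) : Submodule S.R K := Submodule.span S.R (Gen.e '' T)

/-- The complex span of a set of generators. -/
def Sp (T : Set (Gen K)) : Submodule ℂ K := Submodule.span ℂ (Gen.e '' T)

/-- A system of differential equations with negative exponents. -/
def Good (T : Set (Gen K)) : Prop := ∀ q ∈ T, q.t < 0 ∧
  ∃ u ∈ Sp {k | k ∈ T ∧ (k.β ≠ q.β ∨ k.rk < q.rk)}, ∃ v ∈ Lam S T,
    S.D q.e = (algebraMap ℂ K q.β + algebraMap ℂ K (q.t : ℂ) * S.x) * q.e + S.x * u + S.x ^ 2 * v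

/-- Decaying elements. -/
def Dec (y : K) : Prop := ∃ T : Set (Gen K), T.Finite ∧ Good S T ∧ y ∈ Lam S T

/-- `x` times the lattice -/
def XL (T : Set (Gen K)) : Submodule ℂ K :=
  ((Lam S T).restrictScalars ℂ).map (LinearMap.mulLeft ℂ S.x)

variable {S}

theorem x_ne : S.x ≠ 0 := fun h => by
  have := S.hxz
  rw [h, zero_mul] at this
  exact zero_ne_one this

theorem mem_XL {T : Set (Gen K)} {y : K} : y ∈ XL S T ↔ ∃ v ∈ Lam S T, S.x * v = y := by
  unfold XL
  rw [Submodule.mem_map]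
  rfl

theorem Lam_mono {T T' : Set (Gen K)} (h : T ⊆ T') : Lam S T ≤ Lam S T' :=
  Submodule.span_mono (Set.image_mono h)

theorem Sp_mono {T T' : Set (Gen K)} (h : T ⊆ T') : Sp T ≤ Sp T' :=
  Submodule.span_mono (Set.image_mono h)

theorem e_mem_Sp {T : Set (Gen K)} {q : Gen K} (h : q ∈ T) : q.e ∈ Sp T :=
  Submodule.subset_span ⟨q, h, rfl⟩

theorem e_mem_Lam {T : Set (Gen K)} {q : Gen K} (h : q ∈ T) : q.e ∈ Lam S T :=
  Submodule.subset_span ⟨q, h, rfl⟩

theorem Lam_mul {T : Set (Gen K)} {r y : K} (hr : r ∈ S.R) (hy : y ∈ Lam S T) : r * y ∈ Lam S T :=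
  (Lam S T).smul_mem ⟨r, hr⟩ hy

theorem Lam_c {T : Set (Gen K)} {y : K} (c : ℂ) (hy : y ∈ Lam S T) :
    algebraMap ℂ K c * y ∈ Lam S T := Lam_mul (S.R.algebraMap_mem c) hy

theorem Sp_le {T T' : Set (Gen K)} (h : T ⊆ T') : Sp T ≤ (Lam S T').restrictScalars ℂ := by
  refine Submodule.span_le.2 ?_
  rintro _ ⟨q, hq, rfl⟩
  exact e_mem_Lam (h hq)

theorem XL_le (T : Set (Gen K)) : XL S T ≤ (Lam S T).restrictScalars ℂ := by
  intro y hy
  obtain ⟨v, hv, rfl⟩ := mem_XL.1 hy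
  exact Lam_mul S.hx hv

theorem c_mul_mem {W : Submodule ℂ K} {y : K} (c : ℂ) (hy : y ∈ W) : algebraMap ℂ K c * y ∈ W := by
  rw [← Algebra.smul_def]
  exact W.smul_mem c hy

/-- `Λ = span_ℂ + x Λ` -/
theorem Lam_decomp {T : Set (Gen K)} {y : K} (hy : y ∈ Lam S T) : y ∈ Sp T ⊔ XL S T := by
  refine Submodule.span_induction (p := fun y _ => y ∈ Sp T ⊔ XL S T) ?_ ?_ ?_ ?_ hy
  · rintro _ ⟨q, hq, rfl⟩
    exact Submodule.mem_sup_left (e_mem_Sp hq)
  · exact Submodule.zero_mem _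
  · intro a b _ _ ha hb
    exact Submodule.add_mem _ ha hb
  · rintro ⟨r, hr⟩ a ha ha'
    obtain ⟨c, r', hr', rfl⟩ := S.hR1 r hr
    have e : (⟨algebraMap ℂ K c + S.x * r', hr⟩ : S.R) • a = algebraMap ℂ K c * a + S.x * (r' * a) := by
      rw [Subalgebra.smul_def, smul_eq_mul]
      ring
    rw [e]
    refine Submodule.add_mem _ (c_mul_mem c ha') (Submodule.mem_sup_right ?_)
    exact mem_XL.2 ⟨_, Lam_mul hr' ha, rfl⟩

/-- the derivative of a generator -/
theorem D_gen {T : Set (Gen K)} (hT : Good S T) {q : Gen K} (hq : q ∈ T) :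
    ∃ w ∈ Lam S T, S.D q.e = algebraMap ℂ K q.β * q.e + S.x * w := by
  obtain ⟨-, u, hu, v, hv, h⟩ := hT q hq
  refine ⟨algebraMap ℂ K (q.t : ℂ) * q.e + u + S.x * v, ?_, ?_⟩
  · refine Submodule.add_mem _ (Submodule.add_mem _ (Lam_c _ (e_mem_Lam hq)) ?_) (Lam_mul S.hx hv)
    exact Sp_le (fun k hk => hk.1) hu
  · rw [h]
    ring

/-- `D Λ ⊆ span {β ≠ 0} + x Λ` -/
theorem D_Lam {T : Set (Gen K)} (hT : Good S T) {y : K} (hy : y ∈ Lam S T) :
    S.D y ∈ Sp {k | k ∈ T ∧ k.β ≠ 0} ⊔ XL S T := by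
  have hle : Sp {k | k ∈ T ∧ k.β ≠ 0} ⊔ XL S T ≤ (Lam S T).restrictScalars ℂ :=
    sup_le (Sp_le fun k hk => hk.1) (XL_le T)
  refine Submodule.span_induction (p := fun y _ => S.D y ∈ Sp {k | k ∈ T ∧ k.β ≠ 0} ⊔ XL S T)
    ?_ ?_ ?_ ?_ hy
  · rintro _ ⟨q, hq, rfl⟩
    obtain ⟨w, hw, h⟩ := D_gen hT hq
    rw [h]
    refine Submodule.add_mem _ ?_ (Submodule.mem_sup_right (mem_XL.2 ⟨w, hw, rfl⟩))
    by_cases h0 : q.β = 0
    · rw [h0, map_zero, zero_mul]
      exact Submodule.zero_mem _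
    · exact Submodule.mem_sup_left (c_mul_mem _ (e_mem_Sp ⟨hq, h0⟩))
  · rw [map_zero]
    exact Submodule.zero_mem _
  · intro a b _ _ ha hb
    rw [map_add]
    exact Submodule.add_mem _ ha hb
  · rintro ⟨r, hr⟩ a ha ha'
    obtain ⟨c, r', hr', hrr⟩ := S.hR1 r hr
    obtain ⟨r'', hr'', hD⟩ := S.hR2 r hr
    have e : S.D ((⟨r, hr⟩ : S.R) • a) = algebraMap ℂ K c * S.D a +
        S.x * (r' * S.D a + S.x * (r'' * a)) := by
      rw [Subalgebra.smul_def, smul_eq_mul, Derivation.leibniz, smul_eq_mul, smul_eq_mul]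
      show r * S.D a + a * S.D r = _
      rw [hD, hrr]
      ring
    rw [e]
    refine Submodule.add_mem _ (c_mul_mem c ha') (Submodule.mem_sup_right ?_)
    refine mem_XL.2 ⟨_, ?_, rfl⟩
    exact Submodule.add_mem _ (Lam_mul hr' (hle ha')) (Lam_mul S.hx (Lam_mul hr'' ha))

theorem D_Lam' {T : Set (Gen K)} (hT : Good S T) {y : K} (hy : y ∈ Lam S T) : S.D y ∈ Lam S T :=
  (sup_le (Sp_le fun k hk => hk.1) (XL_le T) : Sp {k | k ∈ T ∧ k.β ≠ 0} ⊔ XL S T ≤
    (Lam S T).restrictScalars ℂ) (D_Lam hT hy)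

theorem D_x_mul (μ : K) : S.D (S.x * μ) = S.x * (S.D μ - S.x * μ) := by
  rw [Derivation.leibniz, smul_eq_mul, smul_eq_mul, S.hDx]
  ring

theorem D_XL {T : Set (Gen K)} (hT : Good S T) {y : K} (hy : y ∈ XL S T) : S.D y ∈ XL S T := by
  obtain ⟨v, hv, rfl⟩ := mem_XL.1 hy
  rw [D_x_mul]
  exact mem_XL.2 ⟨_, Submodule.sub_mem _ (D_Lam' hT hv) (Lam_mul S.hx hv), rfl⟩

/-- Step 1 -/
theorem step1 {T : Set (Gen K)} (hT : Good S T) :
    ∀ J : Set (Gen K), J.Finite → J ⊆ T → ∀ y, S.D y ∈ XL S T → y ∈ Sp J ⊔ XL S T →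
      y ∈ Sp {k | k ∈ J ∧ k.β = 0} ⊔ XL S T := by
  intro J hJ
  refine Set.Finite.induction_on (motive := fun J _ => J ⊆ T → ∀ y, S.D y ∈ XL S T →
    y ∈ Sp J ⊔ XL S T → y ∈ Sp {k | k ∈ J ∧ k.β = 0} ⊔ XL S T) J hJ ?_ ?_
  · intro _ y _ hy
    have e : {k : Gen K | k ∈ (∅ : Set (Gen K)) ∧ k.β = 0} = ∅ := by simp
    rw [e]
    exact hy
  · intro q J _ _ ih hsub y hDy hy
    have hq : q ∈ T := hsub (Set.mem_insert _ _)
    have hJT : J ⊆ T := fun k hk => hsub (Set.mem_insert_of_mem _ hk)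
    have e : Sp (insert q J) = Submodule.span ℂ {q.e} ⊔ Sp J := by
      unfold Sp
      rw [Set.image_insert_eq, Submodule.span_insert]
    rw [e, sup_assoc] at hy
    obtain ⟨y1, hy1, y2, hy2, rfl⟩ := Submodule.mem_sup.1 hy
    obtain ⟨a, rfl⟩ := Submodule.mem_span_singleton.1 hy1
    obtain ⟨w, hw, hDq⟩ := D_gen hT hq
    have hDs : S.D (a • q.e) = algebraMap ℂ K q.β * (a • q.e) + S.x * (algebraMap ℂ K a * w) := by
      rw [Derivation.map_smul, hDq, Algebra.smul_def, Algebra.smul_def]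
      ring
    have hxw : S.x * (algebraMap ℂ K a * w) ∈ XL S T := mem_XL.2 ⟨_, Lam_c a hw, rfl⟩
    by_cases h0 : q.β = 0
    · have hDy2 : S.D y2 ∈ XL S T := by
        have e2 : S.D y2 = S.D (a • q.e + y2) - S.x * (algebraMap ℂ K a * w) := by
          rw [map_add, hDs, h0, map_zero]
          ring
        rw [e2]
        exact Submodule.sub_mem _ hDy hxw
      have h2 := ih hJT y2 hDy2 hy2
      refine Submodule.add_mem _ (Submodule.mem_sup_left (Submodule.smul_mem _ a ?_)) ?_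
      · exact e_mem_Sp ⟨Set.mem_insert _ _, h0⟩
      · refine (sup_le_sup_right (Sp_mono ?_) _ : Sp {k | k ∈ J ∧ k.β = 0} ⊔ XL S T ≤ _) h2
        exact fun k hk => ⟨Set.mem_insert_of_mem _ hk.1, hk.2⟩
    · -- `β y ∈ Sp J + XL`
      have hDy2 : S.D y2 ∈ Sp J ⊔ XL S T := by
        obtain ⟨y3, hy3, y4, hy4, rfl⟩ := Submodule.mem_sup.1 hy2
        rw [map_add]
        refine Submodule.add_mem _ ?_ (Submodule.mem_sup_right (D_XL hT hy4))
        have hle : Sp J ≤ (Sp J ⊔ XL S T).comap S.D.toLinearMap := by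
          refine Submodule.span_le.2 ?_
          rintro _ ⟨k, hk, rfl⟩
          obtain ⟨w', hw', hDk⟩ := D_gen hT (hJT hk)
          show S.D k.e ∈ Sp J ⊔ XL S T
          rw [hDk]
          exact Submodule.add_mem _ (Submodule.mem_sup_left (c_mul_mem _ (e_mem_Sp hk)))
            (Submodule.mem_sup_right (mem_XL.2 ⟨_, hw', rfl⟩))
        exact hle hy3
      have h2 : algebraMap ℂ K q.β * (a • q.e + y2) ∈ Sp J ⊔ XL S T := by
        have e2 : algebraMap ℂ K q.β * (a • q.e + y2) = S.D (a • q.e + y2) -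
            S.x * (algebraMap ℂ K a * w) - S.D y2 + algebraMap ℂ K q.β * y2 := by
          rw [map_add, hDs]
          ring
        rw [e2]
        refine Submodule.add_mem _ (Submodule.sub_mem _ (Submodule.sub_mem _ ?_ ?_) hDy2)
          (c_mul_mem _ hy2)
        · exact Submodule.mem_sup_right hDy
        · exact Submodule.mem_sup_right hxw
      have h3 : a • q.e + y2 ∈ Sp J ⊔ XL S T := by
        have h4 := c_mul_mem (q.β)⁻¹ h2
        rw [← mul_assoc, ← map_mul, inv_mul_cancel₀ h0, map_one, one_mul] at h4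
        exact h4
      have h4 := ih hJT _ hDy h3
      refine (sup_le_sup_right (Sp_mono ?_) _ : Sp {k | k ∈ J ∧ k.β = 0} ⊔ XL S T ≤ _) h4
      exact fun k hk => ⟨Set.mem_insert_of_mem _ hk.1, hk.2⟩

theorem step2 {T : Set (Gen K)} (hT : Good S T) (hfin : T.Finite) (l : ℕ) {y : K}
    (hyL : y ∈ Lam S T) (hy : S.D y = algebraMap ℂ K (l : ℂ) * (S.x * y)) : y ∈ XL S T := by
  classical
  have hDy : S.D y ∈ XL S T := by
    rw [hy]
    exact c_mul_mem _ (mem_XL.2 ⟨y, hyL, rfl⟩)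
  set N : Set (Gen K) := {k | k ∈ T ∧ k.β ≠ 0} with hN
  have key : ∀ n : ℕ, ∀ J : Finset (Gen K), J.card = n → (↑J : Set (Gen K)) ⊆ T →
      (∀ q ∈ J, q.β = 0) → (∀ q ∈ J, ∀ k ∈ T, k.β = 0 → k.rk < q.rk → k ∈ J) →
      y ∈ Sp (↑J : Set (Gen K)) ⊔ XL S T → y ∈ XL S T := by
    intro n
    induction n with
    | zero =>
      intro J hJ _ _ _ hyJ
      rw [Finset.card_eq_zero] at hJ
      rw [hJ] at hyJ
      simpa [Sp] using hyJ
    | succ n ih =>
      intro J hJ hJT hJ0 hcl hyJ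
      have hne : J.Nonempty := Finset.card_pos.1 (by omega)
      obtain ⟨q, hqJ, hmax⟩ := Finset.exists_max_image J Gen.rk hne
      have hq : q ∈ T := hJT (Finset.mem_coe.2 hqJ)
      set J' := J.erase q with hJ'
      set W : Submodule ℂ K := Sp ((↑J' : Set (Gen K)) ∪ N) ⊔ XL S T with hW
      have hlow : ∀ j ∈ J, Sp {k | k ∈ T ∧ (k.β ≠ j.β ∨ k.rk < j.rk)} ≤ W := by
        intro j hj
        refine le_sup_of_le_left (Sp_mono ?_)
        rintro k ⟨hk, hk'⟩
        by_cases h0 : k.β = 0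
        · left
          rcases hk' with hk' | hk'
          · exact absurd (h0.trans (hJ0 j hj).symm) hk'
          · have h1 : k ∈ J := hcl j hj k hk h0 hk'
            refine Finset.mem_coe.2 (Finset.mem_erase.2 ⟨?_, h1⟩)
            rintro rfl
            exact absurd hk' (not_lt.2 (hmax j hj))
        · right
          exact ⟨hk, h0⟩
      -- `θ - t` on `Sp J + XL`
      have hθ : ∀ y' ∈ Sp (↑J : Set (Gen K)) ⊔ XL S T,
          S.z * S.D y' - algebraMap ℂ K (q.t : ℂ) * y' ∈ W := by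
        set φ : K →ₗ[ℂ] K := (LinearMap.mulLeft ℂ S.z).comp S.D.toLinearMap -
          LinearMap.mulLeft ℂ (algebraMap ℂ K (q.t : ℂ)) with hφ
        have hφa : ∀ y', φ y' = S.z * S.D y' - algebraMap ℂ K (q.t : ℂ) * y' := fun y' => rfl
        have hle : Sp (↑J : Set (Gen K)) ⊔ XL S T ≤ W.comap φ := by
          refine sup_le (Submodule.span_le.2 ?_) ?_
          · rintro _ ⟨j, hj, rfl⟩
            obtain ⟨-, u, hu, v, hv, h⟩ := hT j (hJT hj)
            show φ j.e ∈ W
            rw [hφa, h, hJ0 j hj, map_zero]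
            have e : S.z * ((0 + algebraMap ℂ K (j.t : ℂ) * S.x) * j.e + S.x * u + S.x ^ 2 * v) -
                algebraMap ℂ K (q.t : ℂ) * j.e =
                (algebraMap ℂ K (j.t : ℂ) - algebraMap ℂ K (q.t : ℂ)) * j.e + u + S.x * v := by
              linear_combination (algebraMap ℂ K (j.t : ℂ) * j.e + u + S.x * v) * S.hxz
            rw [e]
            refine Submodule.add_mem _ (Submodule.add_mem _ ?_ (hlow j hj hu))
              (Submodule.mem_sup_right (mem_XL.2 ⟨v, hv, rfl⟩))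
            by_cases hjq : j = q
            · rw [hjq, sub_self, zero_mul]
              exact Submodule.zero_mem _
            · rw [← map_sub]
              refine c_mul_mem _ (Submodule.mem_sup_left (e_mem_Sp (Or.inl ?_)))
              exact Finset.mem_coe.2 (Finset.mem_erase.2 ⟨hjq, hj⟩)
          · intro y' hy'
            obtain ⟨μ, hμ, rfl⟩ := mem_XL.1 hy'
            show φ (S.x * μ) ∈ W
            rw [hφa, D_x_mul]
            have e : S.z * (S.x * (S.D μ - S.x * μ)) - algebraMap ℂ K (q.t : ℂ) * (S.x * μ) =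
                S.D μ - S.x * μ - algebraMap ℂ K (q.t : ℂ) * (S.x * μ) := by
              linear_combination (S.D μ - S.x * μ) * S.hxz
            rw [e]
            have hxμ : S.x * μ ∈ XL S T := mem_XL.2 ⟨μ, hμ, rfl⟩
            refine Submodule.sub_mem _ (Submodule.sub_mem _ ?_ (Submodule.mem_sup_right hxμ))
              (Submodule.mem_sup_right (c_mul_mem _ hxμ))
            exact (sup_le_sup_right (Sp_mono fun k hk => Or.inr hk) _) (D_Lam hT hμ)
        intro y' hy'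
        exact hle hy'
      have h1 := hθ y hyJ
      have h2 : S.z * S.D y - algebraMap ℂ K (q.t : ℂ) * y =
          algebraMap ℂ K ((l : ℂ) - (q.t : ℂ)) * y := by
        rw [hy, map_sub]
        linear_combination (algebraMap ℂ K (l : ℂ) * y) * S.hxz
      rw [h2] at h1
      have hne0 : (l : ℂ) - (q.t : ℂ) ≠ 0 := by
        have hlt : q.t < 0 := (hT q hq).1
        intro h0
        have h3 : (((l : ℝ) - q.t : ℝ) : ℂ) = 0 := by
          push_cast
          exact h0
        have h4 : (l : ℝ) - q.t = 0 := by exact_mod_cast h3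
        have h5 : (0 : ℝ) ≤ l := Nat.cast_nonneg l
        linarith
      have h3 : y ∈ W := by
        have h4 := c_mul_mem ((l : ℂ) - (q.t : ℂ))⁻¹ h1
        rw [← mul_assoc, ← map_mul, inv_mul_cancel₀ hne0, map_one, one_mul] at h4
        exact h4
      have hsub : (↑J' : Set (Gen K)) ∪ N ⊆ T := by
        rintro k (hk | hk)
        · exact hJT (Finset.mem_coe.2 (Finset.mem_of_mem_erase (Finset.mem_coe.1 hk)))
        · exact hk.1
      have h4 := step1 hT _ (hfin.subset hsub) hsub y hDy h3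
      refine ih J' ?_ ?_ ?_ ?_ ?_
      · rw [hJ', Finset.card_erase_of_mem hqJ, hJ]
        rfl
      · exact fun k hk => hsub (Or.inl hk)
      · exact fun k hk => hJ0 k (Finset.mem_of_mem_erase hk)
      · intro j hj k hk h0 hlt
        have hjJ := Finset.mem_of_mem_erase hj
        refine Finset.mem_erase.2 ⟨?_, hcl j hjJ k hk h0 hlt⟩
        rintro rfl
        exact absurd hlt (not_lt.2 (hmax j hjJ))
      · refine (sup_le_sup_right (Sp_mono ?_) _) h4
        rintro k ⟨hk | hk, h0⟩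
        · exact hk
        · exact absurd h0 hk.2
  have h1 := step1 hT T hfin (Set.Subset.refl T) y hDy (Lam_decomp hyL)
  refine key _ (hfin.toFinset.filter (fun k => k.β = 0)) rfl ?_ ?_ ?_ ?_
  · intro k hk
    simp only [Finset.coe_filter, Set.Finite.mem_toFinset, Set.mem_ofPred_eq] at hk
    exact hk.1
  · intro k hk
    exact (Finset.mem_filter.1 hk).2
  · intro q _ k hk h0 _
    exact Finset.mem_filter.2 ⟨hfin.mem_toFinset.2 hk, h0⟩
  · refine (sup_le_sup_right (Sp_mono ?_) _) h1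
    rintro k ⟨hk, h0⟩
    exact Finset.mem_coe.2 (Finset.mem_filter.2 ⟨hfin.mem_toFinset.2 hk, h0⟩)

theorem D_z : S.D S.z = 1 := by
  have h1 : S.D (S.x * S.z) = 0 := by
    rw [S.hxz]
    exact S.D.map_one_eq_zero
  rw [Derivation.leibniz, smul_eq_mul, smul_eq_mul, S.hDx] at h1
  linear_combination S.z * h1 - (S.D S.z - S.x * S.z - 1) * S.hxz

theorem D_z_pow (l : ℕ) : S.D (S.z ^ l) = algebraMap ℂ K (l : ℂ) * (S.x * S.z ^ l) := by
  induction l with
  | zero =>
    rw [pow_zero, S.D.map_one_eq_zero]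
    simp
  | succ l ih =>
    rw [pow_succ, Derivation.leibniz, smul_eq_mul, smul_eq_mul, D_z, ih]
    rw [Nat.cast_succ, map_add, map_one]
    linear_combination (-(S.z ^ l)) * S.hxz

/-- `1` is not decaying. -/
theorem not_dec_one : ¬ Dec S 1 := by
  rintro ⟨T, hfin, hT, h1⟩
  have hpow : ∀ l : ℕ, S.z ^ l ∈ Lam S T := by
    intro l
    induction l with
    | zero => rwa [pow_zero]
    | succ l ih =>
      obtain ⟨v, hv, h⟩ := mem_XL.1 (step2 hT hfin l ih (D_z_pow l))
      have e : S.z ^ (l + 1) = v := by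
        rw [pow_succ]
        linear_combination v * S.hxz - S.z * h
      rw [e]
      exact hv
  have hNR : IsNoetherianRing S.R := S.hN
  have hNL : IsNoetherian S.R (Lam S T) := isNoetherian_span_of_finite S.R (hfin.image _)
  let f : ℕ →o Submodule S.R (Lam S T) :=
    { toFun := fun n => (Submodule.span S.R {S.z ^ n}).comap (Lam S T).subtype
      monotone' := by
        refine monotone_nat_of_le_succ fun n => Submodule.comap_mono ?_
        rw [Submodule.span_singleton_le_iff_mem, Submodule.mem_span_singleton]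
        refine ⟨⟨S.x, S.hx⟩, ?_⟩
        rw [Subalgebra.smul_def, smul_eq_mul, pow_succ]
        show S.x * (S.z ^ n * S.z) = S.z ^ n
        linear_combination S.z ^ n * S.hxz }
  obtain ⟨n, hn⟩ := (monotone_stabilizes_iff_noetherian.2 hNL) f
  have h2 : (⟨S.z ^ (n + 1), hpow (n + 1)⟩ : Lam S T) ∈ f (n + 1) :=
    Submodule.mem_comap.2 (Submodule.mem_span_singleton_self _)
  rw [← hn (n + 1) (Nat.le_succ n)] at h2
  have h3 : S.z ^ (n + 1) ∈ Submodule.span S.R {S.z ^ n} := h2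
  obtain ⟨r, hr⟩ := Submodule.mem_span_singleton.1 h3
  rw [Subalgebra.smul_def, smul_eq_mul, pow_succ] at hr
  have hz0 : S.z ≠ 0 := fun h => by
    have := S.hxz
    rw [h, mul_zero] at this
    exact zero_ne_one this
  have h4 : (r : K) = S.z := by
    refine mul_right_cancel₀ (pow_ne_zero n hz0) ?_
    rw [hr]
    ring
  exact S.hz (h4 ▸ r.2)

/-! ### closure properties -/

theorem Good.mono_one {T T' : Set (Gen K)} (hT : Good S T) (h : T ⊆ T') {q : Gen K} (hq : q ∈ T) :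
    q.t < 0 ∧ ∃ u ∈ Sp {k | k ∈ T' ∧ (k.β ≠ q.β ∨ k.rk < q.rk)}, ∃ v ∈ Lam S T',
      S.D q.e = (algebraMap ℂ K q.β + algebraMap ℂ K (q.t : ℂ) * S.x) * q.e + S.x * u +
        S.x ^ 2 * v := by
  obtain ⟨h1, u, hu, v, hv, h2⟩ := hT q hq
  refine ⟨h1, u, Sp_mono ?_ hu, v, Lam_mono h hv, h2⟩
  exact fun k hk => ⟨h hk.1, hk.2⟩

theorem Dec.add {a b : K} (ha : Dec S a) (hb : Dec S b) : Dec S (a + b) := by
  obtain ⟨T, hfin, hT, hy⟩ := ha
  obtain ⟨T', hfin', hT', hy'⟩ := hb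
  refine ⟨T ∪ T', hfin.union hfin', ?_, ?_⟩
  · rintro q (hq | hq)
    · exact hT.mono_one Set.subset_union_left hq
    · exact hT'.mono_one Set.subset_union_right hq
  · exact Submodule.add_mem _ (Lam_mono Set.subset_union_left hy) (Lam_mono Set.subset_union_right hy')

theorem Dec.mul_left {r y : K} (hr : r ∈ S.R) (hy : Dec S y) : Dec S (r * y) := by
  obtain ⟨T, hfin, hT, hy⟩ := hy
  exact ⟨T, hfin, hT, Lam_mul hr hy⟩

theorem Dec.c_mul {y : K} (c : ℂ) (hy : Dec S y) : Dec S (algebraMap ℂ K c * y) :=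
  hy.mul_left (S.R.algebraMap_mem c)

theorem Dec.neg {y : K} (hy : Dec S y) : Dec S (-y) := by
  have := hy.c_mul (-1)
  rwa [map_neg, map_one, neg_one_mul] at this

theorem Dec.sub {a b : K} (ha : Dec S a) (hb : Dec S b) : Dec S (a - b) := by
  rw [sub_eq_add_neg]
  exact ha.add hb.neg

theorem Dec.zero : Dec S 0 := ⟨∅, Set.finite_empty, fun _ h => absurd h (Set.notMem_empty _),
  Submodule.zero_mem _⟩

theorem Dec.sum {ι : Type*} (s : Finset ι) (f : ι → K) (h : ∀ i ∈ s, Dec S (f i)) :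
    Dec S (∑ i ∈ s, f i) := by
  classical
  induction s using Finset.induction_on with
  | empty => simpa using Dec.zero
  | insert i s hi ih =>
    rw [Finset.sum_insert hi]
    exact (h i (Finset.mem_insert_self _ _)).add (ih fun j hj => h j (Finset.mem_insert_of_mem hj))

variable (S) in
/-- the generator `x` -/
def gx : Gen K := ⟨S.x, 0, -1, 0⟩

theorem good_gx (T' : Set (Gen K)) : (gx S).t < 0 ∧
    ∃ u ∈ Sp {k | k ∈ T' ∧ (k.β ≠ (gx S).β ∨ k.rk < (gx S).rk)}, ∃ v ∈ Lam S T',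
      S.D (gx S).e = (algebraMap ℂ K (gx S).β + algebraMap ℂ K ((gx S).t : ℂ) * S.x) * (gx S).e +
        S.x * u + S.x ^ 2 * v := by
  refine ⟨by simp [gx], 0, Submodule.zero_mem _, 0, Submodule.zero_mem _, ?_⟩
  simp only [gx, S.hDx, map_zero, mul_zero, add_zero, zero_add]
  rw [Complex.ofReal_neg, Complex.ofReal_one, map_neg, map_one]
  ring

theorem Dec.x : Dec S S.x := by
  refine ⟨{gx S}, Set.finite_singleton _, ?_, ?_⟩
  · intro q hq
    rw [Set.mem_singleton_iff] at hq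
    subst hq
    exact good_gx _
  · exact e_mem_Lam (q := gx S) (Set.mem_singleton _)

/-- The basic differential equation. -/
theorem Dec.ode {y h r : K} {β w : ℂ} {t : ℝ} (hr : r ∈ S.R) (ht : t < 0) (hh : Dec S h)
    (hβ : β ≠ 0 ∨ w = 0) (hy : S.D y = (algebraMap ℂ K β + algebraMap ℂ K (t : ℂ) * S.x +
      S.x ^ 2 * r) * y + S.x * h + algebraMap ℂ K w * S.x) : Dec S y := by
  obtain ⟨T, hfin, hT, hh⟩ := hh
  obtain ⟨u0, hu0, a, ha, hua⟩ := Submodule.mem_sup.1 (Lam_decomp hh)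
  obtain ⟨v0, hv0, rfl⟩ := mem_XL.1 ha
  obtain ⟨B, hB⟩ := (hfin.image Gen.rk).bddAbove
  have hB' : ∀ k ∈ T, k.rk < B + 1 := fun k hk => Nat.lt_succ_of_le (hB ⟨k, hk, rfl⟩)
  set κ : ℂ := w / β with hκ
  have hκw : β * κ = w := by
    rcases hβ with h0 | h0
    · rw [hκ]
      field_simp
    · rw [hκ, h0]
      simp
  have hκw' : algebraMap ℂ K w = algebraMap ℂ K β * algebraMap ℂ K κ := by
    rw [← map_mul, hκw]
  set gy : Gen K := ⟨y + algebraMap ℂ K κ * S.x, β, t, B + 1⟩ with hgy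
  set T' : Set (Gen K) := insert gy (insert (gx S) T) with hT'
  have hsub : T ⊆ T' := fun k hk => Set.mem_insert_of_mem _ (Set.mem_insert_of_mem _ hk)
  have hgxT : gx S ∈ T' := Set.mem_insert_of_mem _ (Set.mem_insert _ _)
  have hgyT : gy ∈ T' := Set.mem_insert _ _
  have hxL : S.x ∈ Lam S T' := e_mem_Lam (q := gx S) hgxT
  have hyL : y + algebraMap ℂ K κ * S.x ∈ Lam S T' := e_mem_Lam (q := gy) hgyT
  refine ⟨T', (hfin.insert _).insert _, ?_, ?_⟩
  · rintro q (hq | hq | hq)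
    · rw [hq]
      refine ⟨ht, u0 - algebraMap ℂ K ((t : ℂ) * κ + κ) * S.x, ?_,
        r * (y + algebraMap ℂ K κ * S.x) - algebraMap ℂ K κ * (r * S.x) + v0, ?_, ?_⟩
      · refine Submodule.sub_mem _ (Sp_mono ?_ hu0) (c_mul_mem _ (e_mem_Sp (q := gx S) ?_))
        · exact fun k hk => ⟨hsub hk, Or.inr (hB' k hk)⟩
        · exact ⟨hgxT, Or.inr (Nat.succ_pos B)⟩
      · refine Submodule.add_mem _ (Submodule.sub_mem _ (Lam_mul hr hyL) (Lam_c _ (Lam_mul hr hxL)))
          (Lam_mono hsub hv0)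
      · show S.D (y + algebraMap ℂ K κ * S.x) =
          (algebraMap ℂ K β + algebraMap ℂ K (t : ℂ) * S.x) * (y + algebraMap ℂ K κ * S.x) + _ + _
        have hD1 : S.D (algebraMap ℂ K κ * S.x) = algebraMap ℂ K κ * (-S.x ^ 2) := by
          rw [← Algebra.smul_def, Derivation.map_smul, S.hDx, Algebra.smul_def]
        rw [map_add, hD1, hy, ← hua, hκw', map_add, map_mul]
        ring
    · rw [hq]
      exact good_gx _
    · exact hT.mono_one hsub hq
  · have e : y = (y + algebraMap ℂ K κ * S.x) - algebraMap ℂ K κ * S.x := by ring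
    rw [e]
    exact Submodule.sub_mem _ hyL (Lam_c _ hxL)

/-- Products of decaying elements are decaying. -/
theorem Dec.mul {a b : K} (ha : Dec S a) (hb : Dec S b) : Dec S (a * b) := by
  obtain ⟨T, hfin, hT, hy⟩ := ha
  obtain ⟨T', hfin', hT', hy'⟩ := hb
  set m : Gen K → Gen K → Gen K := fun q q' => ⟨q.e * q'.e, q.β + q'.β, q.t + q'.t, q.rk + q'.rk⟩
    with hm
  have hLL : ∀ u ∈ Lam S T, ∀ v ∈ Lam S T', u * v ∈ Lam S (Set.image2 m T T') := by
    intro u hu v hv
    refine Submodule.span_induction (p := fun u _ => u * v ∈ Lam S (Set.image2 m T T'))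
      ?_ ?_ ?_ ?_ hu
    · rintro _ ⟨q, hq, rfl⟩
      refine Submodule.span_induction (p := fun v _ => q.e * v ∈ Lam S (Set.image2 m T T'))
        ?_ ?_ ?_ ?_ hv
      · rintro _ ⟨q', hq', rfl⟩
        exact e_mem_Lam (q := m q q') ⟨q, hq, q', hq', rfl⟩
      · rw [mul_zero]
        exact Submodule.zero_mem _
      · intro c d _ _ hc hd
        rw [mul_add]
        exact Submodule.add_mem _ hc hd
      · intro r c _ hc
        rw [mul_smul_comm]
        exact Submodule.smul_mem _ r hc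
    · rw [zero_mul]
      exact Submodule.zero_mem _
    · intro c d _ _ hc hd
      rw [add_mul]
      exact Submodule.add_mem _ hc hd
    · intro r c _ hc
      rw [smul_mul_assoc]
      exact Submodule.smul_mem _ r hc
  refine ⟨Set.image2 m T T', hfin.image2 _ hfin', ?_, hLL _ hy _ hy'⟩
  rintro _ ⟨q, hq, q', hq', rfl⟩
  obtain ⟨ht, u, hu, v, hv, h⟩ := hT q hq
  obtain ⟨ht', u', hu', v', hv', h'⟩ := hT' q' hq'
  refine ⟨add_neg ht ht', u * q'.e + q.e * u', ?_, v * q'.e + q.e * v', ?_, ?_⟩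
  · refine Submodule.add_mem _ ?_ ?_
    · have hle : Sp {k | k ∈ T ∧ (k.β ≠ q.β ∨ k.rk < q.rk)} ≤
          (Sp {k | k ∈ Set.image2 m T T' ∧ (k.β ≠ (m q q').β ∨ k.rk < (m q q').rk)}).comap
            (LinearMap.mulRight ℂ q'.e) := by
        refine Submodule.span_le.2 ?_
        rintro _ ⟨k, ⟨hk, hk'⟩, rfl⟩
        refine e_mem_Sp (q := m k q') ⟨⟨k, hk, q', hq', rfl⟩, ?_⟩
        rcases hk' with hk' | hk'
        · left
          exact fun h0 => hk' (add_right_cancel h0)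
        · right
          exact Nat.add_lt_add_right hk' _
      exact hle hu
    · have hle : Sp {k | k ∈ T' ∧ (k.β ≠ q'.β ∨ k.rk < q'.rk)} ≤
          (Sp {k | k ∈ Set.image2 m T T' ∧ (k.β ≠ (m q q').β ∨ k.rk < (m q q').rk)}).comap
            (LinearMap.mulLeft ℂ q.e) := by
        refine Submodule.span_le.2 ?_
        rintro _ ⟨k, ⟨hk, hk'⟩, rfl⟩
        refine e_mem_Sp (q := m q k) ⟨⟨q, hq, k, hk, rfl⟩, ?_⟩
        rcases hk' with hk' | hk'
        · left
          exact fun h0 => hk' (add_left_cancel h0)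
        · right
          exact Nat.add_lt_add_left hk' _
      exact hle hu'
  · exact Submodule.add_mem _ (hLL _ hv _ (e_mem_Lam hq')) (hLL _ (e_mem_Lam hq) _ hv')
  · show S.D (q.e * q'.e) = (algebraMap ℂ K (q.β + q'.β) + algebraMap ℂ K ((q.t + q'.t : ℝ) : ℂ) * S.x)
      * (q.e * q'.e) + S.x * _ + S.x ^ 2 * _
    rw [Derivation.leibniz, smul_eq_mul, smul_eq_mul, h, h', map_add, Complex.ofReal_add, map_add]
    ring

/-- Multiplication by an exponential. -/
theorem Dec.exp_mul {E y : K} {c : ℂ} (hE : S.D E = algebraMap ℂ K c * E) (hy : Dec S y) :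
    Dec S (E * y) := by
  obtain ⟨T, hfin, hT, hy⟩ := hy
  set m : Gen K → Gen K := fun q => ⟨E * q.e, q.β + c, q.t, q.rk⟩ with hm
  have hLL : ∀ u ∈ Lam S T, E * u ∈ Lam S (m '' T) := by
    intro u hu
    refine Submodule.span_induction (p := fun u _ => E * u ∈ Lam S (m '' T)) ?_ ?_ ?_ ?_ hu
    · rintro _ ⟨q, hq, rfl⟩
      exact e_mem_Lam (q := m q) ⟨q, hq, rfl⟩
    · rw [mul_zero]
      exact Submodule.zero_mem _
    · intro c d _ _ hc hd
      rw [mul_add]
      exact Submodule.add_mem _ hc hd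
    · intro r c _ hc
      rw [mul_smul_comm]
      exact Submodule.smul_mem _ r hc
  refine ⟨m '' T, hfin.image _, ?_, hLL _ hy⟩
  rintro _ ⟨q, hq, rfl⟩
  obtain ⟨ht, u, hu, v, hv, h⟩ := hT q hq
  refine ⟨ht, E * u, ?_, E * v, hLL _ hv, ?_⟩
  · have hle : Sp {k | k ∈ T ∧ (k.β ≠ q.β ∨ k.rk < q.rk)} ≤
        (Sp {k | k ∈ m '' T ∧ (k.β ≠ (m q).β ∨ k.rk < (m q).rk)}).comap (LinearMap.mulLeft ℂ E) := by
      refine Submodule.span_le.2 ?_
      rintro _ ⟨k, ⟨hk, hk'⟩, rfl⟩
      refine e_mem_Sp (q := m k) ⟨⟨k, hk, rfl⟩, ?_⟩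
      rcases hk' with hk' | hk'
      · left
        exact fun h0 => hk' (add_right_cancel h0)
      · right
        exact hk'
    exact hle hu
  · show S.D (E * q.e) = (algebraMap ℂ K (q.β + c) + algebraMap ℂ K (q.t : ℂ) * S.x) * (E * q.e) +
      S.x * (E * u) + S.x ^ 2 * (E * v)
    rw [Derivation.leibniz, smul_eq_mul, smul_eq_mul, h, hE, map_add]
    ring

end Pool.Agent.FCQ
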