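import Pool.Agent.FCQ.Quad2

/-!
# FCQ : constant terms, polynomials of degree at most two
-/

set_option autoImplicit false

open MvPolynomial

attribute [-instance] HahnSeries.powerSeriesAlgebra

namespace Pool.Agent.FCQ

variable {σ : Type} [Fintype σ] [DecidableEq σ]

/-- power series as Laurent series -/
noncomputable def ofP : PowerSeries ℂ →+* LS := HahnSeries.ofPowerSeries ℤ ℂ

theorem ofP_nat (p : PowerSeries ℂ) (n : ℕ) : (ofP p).coeff (n : ℤ) = PowerSeries.coeff n p :=
  HahnSeries.ofPowerSeries_apply_coeff p n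

theorem ofP_neg (p : PowerSeries ℂ) {n : ℤ} (hn : n < 0) : (ofP p).coeff n = 0 := by
  unfold ofP
  rw [HahnSeries.ofPowerSeries_apply]
  refine HahnSeries.embDomain_of_notMem_range ?_
  rintro ⟨k, hk⟩
  have h1 : ((k : ℕ) : ℤ) = n := hk
  omega

theorem II_eq_ofP (f : MvPolynomial σ ℂ) (F : Finset σ) (g : MvPolynomial σ ℂ) :
    II f F g = ofP (PowerSeries.mk fun n => LF F (g * f ^ n) / (n.factorial : ℂ)) := by
  refine ext3 ?_ ?_ ?_
  · intro n
    rw [II_nat, ofP_nat, PowerSeries.coeff_mk]
  · rw [II_neg _ _ _ (by omega), ofP_neg _ (by omega)]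
  · intro n hn
    rw [II_neg _ _ _ (by omega), ofP_neg _ (by omega)]

/-- `e^(cz)` -/
noncomputable def EE (c : ℂ) : LS := ofP (PowerSeries.mk fun n => c ^ n / (n.factorial : ℂ))

theorem DD_EE (c : ℂ) : DD (EE c) = ka c * EE c := by
  have h0 : ka c * EE c = c • EE c := (Algebra.smul_def (A := LS) c (EE c)).symm
  rw [h0]
  unfold EE
  refine ext3 ?_ ?_ ?_
  · intro n
    have h : ((n : ℤ) + 1) = ((n + 1 : ℕ) : ℤ) := by push_cast; ring
    rw [DD_coeff, h, ofP_nat, HahnSeries.coeff_smul, ofP_nat, PowerSeries.coeff_mk, PowerSeries.coeff_mk,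
      Nat.factorial_succ, smul_eq_mul, pow_succ]
    have h1 : ((n.factorial : ℕ) : ℂ) ≠ 0 := by exact_mod_cast n.factorial_ne_zero
    have h2 : ((n + 1 : ℕ) : ℂ) ≠ 0 := by exact_mod_cast Nat.succ_ne_zero n
    push_cast at h2 ⊢
    field_simp
  · rw [DD_coeff, HahnSeries.coeff_smul, ofP_neg (PowerSeries.mk fun n => c ^ n / (n.factorial : ℂ))
      (by omega : (-1 : ℤ) < 0)]
    simp
  · intro n hn
    rw [DD_coeff, HahnSeries.coeff_smul, ofP_neg _ (by omega), ofP_neg _ (by omega)]
    simp

theorem EE_mul_II (c : ℂ) (q : MvPolynomial σ ℂ) (F : Finset σ) (g : MvPolynomial σ ℂ) :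
    EE c * II q F g = II (C c + q) F g := by
  rw [II_eq_ofP, II_eq_ofP, EE, ← map_mul]
  congr 1
  ext n
  rw [PowerSeries.coeff_mul, PowerSeries.coeff_mk, (Commute.all _ _).add_pow', Finset.mul_sum, map_sum, Finset.sum_div]
  refine Finset.sum_congr rfl ?_
  intro ij hij
  rw [PowerSeries.coeff_mk, PowerSeries.coeff_mk]
  have h1 : ij.1 + ij.2 = n := Finset.HasAntidiagonal.mem_antidiagonal.1 hij
  have h2 : g * (n.choose ij.1 • ((C c : MvPolynomial σ ℂ) ^ ij.1 * q ^ ij.2)) =
      (((n.choose ij.1 : ℕ) : ℂ) * c ^ ij.1) • (g * q ^ ij.2) := by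
    rw [nsmul_eq_mul, smul_eq_C_mul, map_mul, map_pow, map_natCast]
    ring
  rw [h2, map_smul, smul_eq_mul]
  have h3 : n.choose ij.1 * ij.1.factorial * ij.2.factorial = n.factorial := by
    have := Nat.choose_mul_factorial_mul_factorial (n := n) (k := ij.1) (by omega)
    rwa [show n - ij.1 = ij.2 from by omega] at this
  have h4 : ((n.choose ij.1 : ℕ) : ℂ) * (ij.1.factorial : ℂ) * (ij.2.factorial : ℂ) = (n.factorial : ℂ) := by
    exact_mod_cast h3
  have h5 : ((ij.1.factorial : ℕ) : ℂ) ≠ 0 := by exact_mod_cast ij.1.factorial_ne_zero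
  have h6 : ((ij.2.factorial : ℕ) : ℂ) ≠ 0 := by exact_mod_cast ij.2.factorial_ne_zero
  have h7 : ((n.factorial : ℕ) : ℂ) ≠ 0 := by exact_mod_cast n.factorial_ne_zero
  field_simp
  rw [← h4]
  ring

/-! ### polynomials of degree at most two -/

theorem qf_add (a a' : σ → σ → ℂ) (b b' : σ → ℂ) :
    qf (fun i j => a i j + a' i j) (fun i => b i + b' i) = qf a b + qf a' b' := by
  unfold qf
  simp only [map_add, add_mul, Finset.sum_add_distrib]
  ring

theorem qf_zero : qf (fun _ _ => 0) (fun _ => 0) = (0 : MvPolynomial σ ℂ) := by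
  unfold qf
  simp

theorem repr_monomial (s : σ →₀ ℕ) (hs : s.degree ≤ 2) (r : ℂ) :
    ∃ (c : ℂ) (a : σ → σ → ℂ) (b : σ → ℂ), (∀ i j, a i j = a j i) ∧
      (monomial s r : MvPolynomial σ ℂ) = C c + qf a b := by
  by_cases h0 : s = 0
  · subst h0
    exact ⟨r, fun _ _ => 0, fun _ => 0, fun _ _ => rfl, by rw [qf_zero, add_zero]; rfl⟩
  obtain ⟨i, hi⟩ : ∃ i, s i ≠ 0 := by
    by_contra h
    push Not at h
    exact h0 (Finsupp.ext h)
  have e1 : s = (s - Finsupp.single i 1) + Finsupp.single i 1 := by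
    ext j
    rw [Finsupp.add_apply, Finsupp.tsub_apply, Finsupp.single_apply]
    split_ifs with h2
    · subst h2
      omega
    · omega
  set t : σ →₀ ℕ := s - Finsupp.single i 1 with ht
  have hdeg : s.degree = t.degree + 1 := by
    conv_lhs => rw [e1]
    rw [map_add, Finsupp.degree_single]
  by_cases h1 : t = 0
  · refine ⟨0, fun _ _ => 0, fun j => if j = i then r else 0, fun _ _ => rfl, ?_⟩
    have h2 : (monomial s r : MvPolynomial σ ℂ) = C r * X i := by
      rw [e1, h1, zero_add, C_mul_X_eq_monomial]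
    rw [h2]
    unfold qf
    rw [Finset.sum_eq_single_of_mem i (Finset.mem_univ i)
      (f := fun k => C (if k = i then r else 0) * (X k : MvPolynomial σ ℂ))]
    · simp
    · intro j _ hj
      simp [hj]
  · obtain ⟨j, hj⟩ : ∃ j, t j ≠ 0 := by
      by_contra h
      push Not at h
      exact h1 (Finsupp.ext h)
    have e2 : t = (t - Finsupp.single j 1) + Finsupp.single j 1 := by
      clear_value t
      clear e1
      ext k
      rw [Finsupp.add_apply, Finsupp.tsub_apply, Finsupp.single_apply]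
      split_ifs with h2
      · subst h2
        omega
      · omega
    have hdeg2 : t.degree = (t - Finsupp.single j 1 : σ →₀ ℕ).degree + 1 := by
      conv_lhs => rw [e2]
      rw [map_add, Finsupp.degree_single]
    have h3 : (t - Finsupp.single j 1 : σ →₀ ℕ) = 0 := by
      have h4 : (t - Finsupp.single j 1 : σ →₀ ℕ).degree = 0 := by omega
      exact Finsupp.degree_eq_zero_iff _ |>.1 h4
    have h5 : (monomial s r : MvPolynomial σ ℂ) = C r * (X i * X j) := by
      rw [e1, e2, h3, zero_add, X, X, monomial_mul, C_mul_monomial, mul_one, mul_one, add_comm]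
    refine ⟨0, fun k l => (if k = i ∧ l = j then r / 2 else 0) + (if k = j ∧ l = i then r / 2 else 0),
      fun _ => 0, ?_, ?_⟩
    · intro k l
      beta_reduce
      rw [add_comm]
      congr 1
      · simp only [and_comm]
      · simp only [and_comm]
    · rw [h5]
      unfold qf
      have h6 : ∀ (u v : σ), ∑ k, ∑ l, (C (if k = u ∧ l = v then r / 2 else 0) * (X k * X l) : MvPolynomial σ ℂ) =
          C (r / 2) * (X u * X v) := by
        intro u v
        rw [Finset.sum_eq_single_of_mem u (Finset.mem_univ u), Finset.sum_eq_single_of_mem v (Finset.mem_univ v)]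
        · rw [if_pos ⟨rfl, rfl⟩]
        · intro l _ hl
          rw [if_neg (fun h => hl h.2), map_zero, zero_mul]
        · intro k _ hk
          refine Finset.sum_eq_zero ?_
          intro l _
          rw [if_neg (fun h => hk h.1), map_zero, zero_mul]
      simp only [map_add, add_mul, Finset.sum_add_distrib, h6]
      simp only [map_zero, zero_mul, Finset.sum_const_zero, add_zero, zero_add]
      have h7 : (C r : MvPolynomial σ ℂ) = C (r / 2) + C (r / 2) := by
        rw [← map_add]
        congr 1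
        ring
      rw [h7]
      ring

theorem repr_quad (f : MvPolynomial σ ℂ) (hf : f.totalDegree ≤ 2) :
    ∃ (c : ℂ) (a : σ → σ → ℂ) (b : σ → ℂ), (∀ i j, a i j = a j i) ∧ f = C c + qf a b := by
  have key : ∀ T : Finset (σ →₀ ℕ), (∀ s ∈ T, s.degree ≤ 2) → ∃ (c : ℂ) (a : σ → σ → ℂ) (b : σ → ℂ),
      (∀ i j, a i j = a j i) ∧ (∑ s ∈ T, monomial s (coeff s f) : MvPolynomial σ ℂ) = C c + qf a b := by
    intro T
    induction T using Finset.induction_on with
    | empty =>
      intro _
      exact ⟨0, fun _ _ => 0, fun _ => 0, fun _ _ => rfl, by rw [qf_zero, Finset.sum_empty, map_zero, add_zero]⟩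
    | insert s T hs ih =>
      intro h
      obtain ⟨c, a, b, ha, h1⟩ := ih (fun t ht => h t (Finset.mem_insert_of_mem ht))
      obtain ⟨c', a', b', ha', h2⟩ := repr_monomial s (h s (Finset.mem_insert_self s T)) (coeff s f)
      refine ⟨c' + c, fun i j => a' i j + a i j, fun i => b' i + b i, ?_, ?_⟩
      · intro i j
        beta_reduce
        rw [ha i j, ha' i j]
      · rw [Finset.sum_insert hs, h1, h2, qf_add, map_add]
        ring
  have h1 := key f.support (by
    intro s hs
    have h2 := le_totalDegree hs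
    rw [Finsupp.degree_eq_sum]
    rw [Finsupp.sum_fintype _ _ (fun _ => rfl)] at h2
    exact h2.trans hf)
  rwa [support_sum_monomial_coeff] at h1

/-- The factorial conjecture for polynomials of degree at most two. -/
theorem fc_quad (f : MvPolynomial σ ℂ) (hf : f.totalDegree ≤ 2)
    (hL : ∀ m : ℕ, 1 ≤ m → LF Finset.univ (f ^ m) = 0) : f = 0 := by
  obtain ⟨c, a, b, ha, rfl⟩ := repr_quad f hf
  by_cases hZ : ZF a b Finset.univ
  · have hq : qf a b = 0 := by
      have h1 : a = fun _ _ => 0 := by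
        funext i j
        exact hZ.1 i (Finset.mem_univ i) j (Finset.mem_univ j)
      have h2 : b = fun _ => 0 := by
        funext i
        exact hZ.2 i (Finset.mem_univ i)
      rw [h1, h2, qf_zero]
    have h3 := hL 1 le_rfl
    rw [hq, add_zero, pow_one] at h3
    have h4 : (C c : MvPolynomial σ ℂ) = c • 1 := by rw [smul_eq_C_mul, mul_one]
    rw [h4, map_smul, LF_one, smul_eq_mul, mul_one] at h3
    rw [hq, h3, map_zero, add_zero]
  · exfalso
    have h1 := quad_dec a b ha Finset.univ hZ 1
    have h2 := Dec.exp_mul (S := SS) (E := EE c) (c := c) (DD_EE c) h1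
    rw [IL_apply, EE_mul_II, ← IL_apply, IL_one _ _ hL, LF_one, map_one] at h2
    exact not_dec_one h2

theorem LF_univ (p : MvPolynomial σ ℂ) :
    LF Finset.univ p = ∑ s ∈ p.support, coeff s p * ∏ i, ((s i).factorial : ℂ) := by
  conv_lhs => rw [← support_sum_monomial_coeff p]
  rw [map_sum]
  refine Finset.sum_congr rfl ?_
  intro s _
  rw [LF_monomial, wt]
  congr 1
  refine Finset.prod_congr rfl ?_
  intro i _
  rw [if_pos (Finset.mem_univ i)]

end Pool.Agent.FCQ
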