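import Pool.Agent.FCQ.Core

/-!
# FCQ : the field of Laurent series in `z`, the derivation `d/dz` and the ring of rational functions of `x = 1/z`
regular at `x = 0`
-/

set_option autoImplicit false

open Polynomial

attribute [-instance] HahnSeries.powerSeriesAlgebra

namespace Pool.Agent.FCQ

/-- Laurent series in `z` -/
abbrev LS : Type := HahnSeries ℤ ℂ

/-- `z d/dz` on coefficients -/
noncomputable def thetaFun (y : LS) : LS where
  coeff n := (n : ℂ) * y.coeff n
  isPWO_support' := y.isPWO_support.mono (by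
    intro n hn
    rw [Function.mem_support] at hn
    rw [HahnSeries.mem_support]
    exact right_ne_zero_of_mul hn)

theorem thetaFun_coeff (y : LS) (n : ℤ) : (thetaFun y).coeff n = (n : ℂ) * y.coeff n := rfl

theorem thetaFun_support (y : LS) : (thetaFun y).support ⊆ y.support := by
  intro n hn
  rw [HahnSeries.mem_support, thetaFun_coeff] at hn
  rw [HahnSeries.mem_support]
  exact right_ne_zero_of_mul hn

theorem thetaFun_mul (y w : LS) : thetaFun (y * w) = y * thetaFun w + w * thetaFun y := by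
  ext n
  rw [HahnSeries.coeff_add, mul_comm w (thetaFun y),
    HahnSeries.coeff_mul_right' w.isPWO_support (thetaFun_support w),
    HahnSeries.coeff_mul_left' y.isPWO_support (thetaFun_support y), thetaFun_coeff, HahnSeries.coeff_mul,
    Finset.mul_sum, ← Finset.sum_add_distrib]
  refine Finset.sum_congr rfl ?_
  intro ij hij
  have h : ij.1 + ij.2 = n := (Finset.mem_antidiagonal.mp hij).2.2
  rw [thetaFun_coeff, thetaFun_coeff, ← h]
  push_cast
  ring

/-- `z d/dz` -/
noncomputable def theta : Derivation ℂ LS LS where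
  toFun := thetaFun
  map_add' y w := by
    ext n
    rw [thetaFun_coeff, HahnSeries.coeff_add, HahnSeries.coeff_add, thetaFun_coeff, thetaFun_coeff]
    ring
  map_smul' c y := by
    ext n
    rw [thetaFun_coeff, RingHom.id_apply, HahnSeries.coeff_smul, HahnSeries.coeff_smul, thetaFun_coeff,
      smul_eq_mul, smul_eq_mul]
    ring
  map_one_eq_zero' := by
    ext n
    change (thetaFun 1).coeff n = _
    rw [thetaFun_coeff, HahnSeries.coeff_one, HahnSeries.coeff_zero]
    split_ifs with h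
    · rw [h]
      simp
    · rw [mul_zero]
  leibniz' y w := thetaFun_mul y w

theorem theta_coeff (y : LS) (n : ℤ) : (theta y).coeff n = (n : ℂ) * y.coeff n := rfl

/-- `x = 1 / z` -/
noncomputable def xx : LS := HahnSeries.single (-1) 1

/-- `z` -/
noncomputable def zz : LS := HahnSeries.single 1 1

theorem xx_mul_coeff (y : LS) (n : ℤ) : (xx * y).coeff n = y.coeff (n + 1) := by
  rw [xx, HahnSeries.coeff_single_mul, one_mul, sub_neg_eq_add]

theorem xx_mul_zz : xx * zz = 1 := by
  rw [xx, zz, HahnSeries.single_mul_single, mul_one]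
  rfl

theorem zz_mul_xx : zz * xx = 1 := by rw [mul_comm, xx_mul_zz]

theorem xx_ne : xx ≠ 0 := fun h => by
  have := xx_mul_zz
  rw [h, zero_mul] at this
  exact zero_ne_one this

/-- `d/dz` -/
noncomputable def DD : Derivation ℂ LS LS := xx • theta

theorem DD_apply (y : LS) : DD y = xx * theta y := rfl

theorem DD_coeff (y : LS) (n : ℤ) : (DD y).coeff n = ((n + 1 : ℤ) : ℂ) * y.coeff (n + 1) := by
  rw [DD_apply, xx_mul_coeff, theta_coeff]

theorem theta_xx : theta xx = -xx := by
  ext n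
  rw [theta_coeff, HahnSeries.coeff_neg, xx, HahnSeries.coeff_single]
  split_ifs with h
  · rw [h]
    simp
  · simp

theorem DD_xx : DD xx = -xx ^ 2 := by
  rw [DD_apply, theta_xx]
  ring

theorem aeval_xx_coeff (p : ℂ[X]) (n : ℕ) : (aeval xx p).coeff (-(n : ℤ)) = p.coeff n := by
  rw [Polynomial.aeval_eq_sum_range, HahnSeries.coeff_sum]
  have h : ∀ i ∈ Finset.range (p.natDegree + 1), (p.coeff i • xx ^ i).coeff (-(n : ℤ)) =
      if i = n then p.coeff n else 0 := by
    intro i _
    rw [HahnSeries.coeff_smul, xx, HahnSeries.single_pow, one_pow, HahnSeries.coeff_single, smul_eq_mul]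
    by_cases h : i = n
    · subst h
      rw [if_pos rfl, if_pos (by simp), mul_one]
    · rw [if_neg h, if_neg, mul_zero]
      intro h1
      apply h
      rw [nsmul_eq_mul] at h1
      omega
  rw [Finset.sum_congr rfl h, Finset.sum_ite_eq']
  split_ifs with h1
  · rfl
  · rw [Finset.mem_range, not_lt] at h1
    exact (coeff_eq_zero_of_natDegree_lt (by omega)).symm

theorem aeval_xx_inj {p : ℂ[X]} (h : aeval xx p = 0) : p = 0 := by
  ext n
  rw [← aeval_xx_coeff, h, HahnSeries.coeff_zero, coeff_zero]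

/-- rational functions of `x` regular at `x = 0` -/
noncomputable def RR : Subalgebra ℂ LS where
  carrier := {y | ∃ p q : ℂ[X], q.coeff 0 ≠ 0 ∧ aeval xx q * y = aeval xx p}
  mul_mem' := by
    rintro a b ⟨p, q, hq, h⟩ ⟨p', q', hq', h'⟩
    refine ⟨p * p', q * q', ?_, ?_⟩
    · rw [mul_coeff_zero]
      exact mul_ne_zero hq hq'
    · rw [map_mul, map_mul, ← h, ← h']
      ring
  add_mem' := by
    rintro a b ⟨p, q, hq, h⟩ ⟨p', q', hq', h'⟩
    refine ⟨q' * p + q * p', q * q', ?_, ?_⟩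
    · rw [mul_coeff_zero]
      exact mul_ne_zero hq hq'
    · rw [map_mul, map_add, map_mul, map_mul, ← h, ← h']
      ring
  algebraMap_mem' := by
    intro c
    exact ⟨C c, 1, by simp, by simp [Polynomial.aeval_C]⟩

theorem mem_RR {y : LS} : y ∈ RR ↔ ∃ p q : ℂ[X], q.coeff 0 ≠ 0 ∧ aeval xx q * y = aeval xx p := Iff.rfl

theorem aeval_mem (p : ℂ[X]) : aeval xx p ∈ RR := ⟨p, 1, by simp, by simp⟩

theorem aeval_ne {q : ℂ[X]} (hq : q.coeff 0 ≠ 0) : aeval xx q ≠ 0 := by
  intro h
  rw [aeval_xx_inj h] at hq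
  exact hq (coeff_zero 0)

theorem aeval_inv_mem {q : ℂ[X]} (hq : q.coeff 0 ≠ 0) : (aeval xx q)⁻¹ ∈ RR :=
  ⟨1, q, hq, by rw [mul_inv_cancel₀ (aeval_ne hq), map_one]⟩

theorem xx_mem : xx ∈ RR := by
  have := aeval_mem X
  rwa [aeval_X] at this

theorem RR1 : ∀ r ∈ RR, ∃ c : ℂ, ∃ r' ∈ RR, r = algebraMap ℂ LS c + xx * r' := by
  rintro r ⟨p, q, hq, h⟩
  set c : ℂ := p.coeff 0 / q.coeff 0 with hc
  obtain ⟨p', hp'⟩ : X ∣ p - C c * q := by
    rw [X_dvd_iff, coeff_sub, coeff_C_mul, hc]
    field_simp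
    ring
  refine ⟨c, zz * (r - algebraMap ℂ LS c), ⟨p', q, hq, ?_⟩, ?_⟩
  · have h1 : aeval xx (p - C c * q) = xx * aeval xx p' := by
      rw [hp', map_mul, aeval_X]
    rw [map_sub, map_mul, aeval_C, ← h] at h1
    calc aeval xx q * (zz * (r - algebraMap ℂ LS c))
        = zz * (aeval xx q * r - algebraMap ℂ LS c * aeval xx q) := by ring
      _ = (zz * xx) * aeval xx p' := by rw [h1]; ring
      _ = aeval xx p' := by rw [zz_mul_xx, one_mul]
  · rw [← mul_assoc, xx_mul_zz, one_mul]
    ring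

theorem DD_aeval (p : ℂ[X]) : DD (aeval xx p) = -xx ^ 2 * aeval xx (derivative p) := by
  rw [Derivation.map_aeval, DD_xx, smul_eq_mul, mul_comm]

theorem RR2 : ∀ r ∈ RR, ∃ r' ∈ RR, DD r = xx ^ 2 * r' := by
  rintro r ⟨p, q, hq, h⟩
  refine ⟨zz ^ 2 * DD r, ⟨derivative q * p - derivative p * q, q ^ 2, ?_, ?_⟩, ?_⟩
  · rw [pow_two, mul_coeff_zero]
    exact mul_ne_zero hq hq
  · have h1 : DD (aeval xx q * r) = DD (aeval xx p) := by rw [h]
    rw [Derivation.leibniz, DD_aeval, DD_aeval, smul_eq_mul, smul_eq_mul] at h1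
    rw [map_pow, map_sub, map_mul, map_mul]
    have h2 : zz * xx = 1 := zz_mul_xx
    have h3 : zz ^ 2 * xx ^ 2 = 1 := by rw [← mul_pow, h2, one_pow]
    linear_combination (zz ^ 2 * aeval xx q) * h1 + (aeval xx (derivative q) * (aeval xx q * r) -
      aeval xx (derivative p) * aeval xx q) * h3 + aeval xx (derivative q) * h
  · rw [← mul_assoc, ← mul_pow, xx_mul_zz, one_pow, one_mul]

theorem RRN : IsNoetherianRing RR := by
  -- the map from polynomials
  let φ : ℂ[X] →ₐ[ℂ] RR := aeval (⟨xx, xx_mem⟩ : RR)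
  have hφ : ∀ p : ℂ[X], ((φ p : RR) : LS) = aeval xx p := by
    intro p
    have h := Polynomial.aeval_algHom_apply (RR.val) (⟨xx, xx_mem⟩ : RR) p
    exact h.symm
  have hmono : ∀ I J : Ideal RR, I.comap φ ≤ J.comap φ → I ≤ J := by
    intro I J h y hy
    obtain ⟨p, q, hq, hpq⟩ := y.2
    have h1 : φ q * y = φ p := by
      apply Subtype.ext
      rw [Subalgebra.coe_mul, hφ, hφ, hpq]
    have h2 : φ p ∈ I := by
      rw [← h1]
      exact I.mul_mem_left _ hy
    have h3 : φ p ∈ J := h h2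
    have h4 : (⟨(aeval xx q)⁻¹, aeval_inv_mem hq⟩ : RR) * φ p = y := by
      rw [← h1, ← mul_assoc]
      have : (⟨(aeval xx q)⁻¹, aeval_inv_mem hq⟩ : RR) * φ q = 1 := by
        apply Subtype.ext
        rw [Subalgebra.coe_mul, hφ]
        exact inv_mul_cancel₀ (aeval_ne hq)
      rw [this, one_mul]
    rw [← h4]
    exact J.mul_mem_left _ h3
  have hs : StrictMono (fun I : Ideal RR => I.comap φ) := by
    intro I J hIJ
    refine lt_of_le_of_ne (Ideal.comap_mono hIJ.le) ?_
    intro h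
    exact absurd (hmono J I h.ge) (not_le_of_gt hIJ)
  have hw : WellFoundedGT (Ideal ℂ[X]) := isNoetherian_iff'.mp (inferInstanceAs (IsNoetherianRing ℂ[X]))
  exact isNoetherian_iff'.mpr hs.wellFoundedGT

theorem zz_not_mem : zz ∉ RR := by
  rintro ⟨p, q, hq, h⟩
  have h1 : aeval xx (q - X * p) = 0 := by
    rw [map_sub, map_mul, aeval_X, ← h]
    have := xx_mul_zz
    linear_combination (- aeval xx q) * this
  have h2 := aeval_xx_inj h1
  rw [sub_eq_zero] at h2
  rw [h2] at hq
  simp at hq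

/-- The context. -/
noncomputable def SS : Ctx LS where
  D := DD
  R := RR
  x := xx
  z := zz
  hx := xx_mem
  hxz := xx_mul_zz
  hDx := DD_xx
  hR1 := RR1
  hR2 := RR2
  hN := RRN
  hz := zz_not_mem

/-- inverses of linear functions of `x` not vanishing at `0` -/
theorem unit_mem {a b : ℂ} (ha : a ≠ 0) : ∃ r ∈ RR, r * (algebraMap ℂ LS a - algebraMap ℂ LS b * xx) = 1 := by
  have h1 : (C a - C b * X : ℂ[X]).coeff 0 ≠ 0 := by
    simpa using ha
  have h2 : aeval xx (C a - C b * X : ℂ[X]) = algebraMap ℂ LS a - algebraMap ℂ LS b * xx := by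
    rw [map_sub, map_mul, aeval_C, aeval_C, aeval_X]
  refine ⟨_, aeval_inv_mem h1, ?_⟩
  rw [← h2]
  exact inv_mul_cancel₀ (aeval_ne h1)

end Pool.Agent.FCQ
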