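import Pool.Agent.FCQ.Field

/-!
# FCQ : the generating functions `I F g = ∑_m z^m L_F (g f^m) / m!`
-/

set_option autoImplicit false

open MvPolynomial

attribute [-instance] HahnSeries.powerSeriesAlgebra

namespace Pool.Agent.FCQ

variable {σ : Type} [Fintype σ] [DecidableEq σ]

/-- the value on a monomial of the functional of the face `F` -/
noncomputable def wt (F : Finset σ) (k : σ →₀ ℕ) : ℂ :=
  ∏ i, (if i ∈ F then ((k i).factorial : ℂ) else if k i = 0 then 1 else 0)

/-- the factorial functional of the face `F` (`X_j = 0` for `j ∉ F`) -/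
noncomputable def LF (F : Finset σ) : MvPolynomial σ ℂ →ₗ[ℂ] ℂ :=
  (MvPolynomial.basisMonomials σ ℂ).constr ℂ (wt F)

theorem LF_monomial (F : Finset σ) (k : σ →₀ ℕ) (c : ℂ) : LF F (monomial k c) = c * wt F k := by
  have h1 : (monomial k c : MvPolynomial σ ℂ) = c • (MvPolynomial.basisMonomials σ ℂ) k := by
    rw [MvPolynomial.coe_basisMonomials, MvPolynomial.smul_monomial, smul_eq_mul, mul_one]
  rw [h1, map_smul, LF, Module.Basis.constr_basis, smul_eq_mul]

theorem LF_X_mul {F : Finset σ} {j : σ} (hj : j ∉ F) (h : MvPolynomial σ ℂ) : LF F (X j * h) = 0 := by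
  induction h using MvPolynomial.induction_on' with
  | monomial k c =>
    rw [X, monomial_mul, one_mul, LF_monomial, wt, Finset.prod_eq_zero (Finset.mem_univ j), mul_zero]
    rw [if_neg hj, if_neg]
    simp
  | add p q hp hq => rw [mul_add, map_add, hp, hq, add_zero]

theorem wt_split (F : Finset σ) (k : σ →₀ ℕ) (i : σ) : wt F k =
    (if i ∈ F then ((k i).factorial : ℂ) else if k i = 0 then 1 else 0) *
      ∏ j ∈ Finset.univ.erase i, (if j ∈ F then ((k j).factorial : ℂ) else if k j = 0 then 1 else 0) := by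
  unfold wt
  exact (Finset.mul_prod_erase Finset.univ
    (fun j => if j ∈ F then ((k j).factorial : ℂ) else if k j = 0 then 1 else 0) (Finset.mem_univ i)).symm

theorem LF_pderiv {F : Finset σ} {i : σ} (hi : i ∈ F) (h : MvPolynomial σ ℂ) :
    LF F (pderiv i h) = LF F h - LF (F.erase i) h := by
  induction h using MvPolynomial.induction_on' with
  | monomial k c =>
    rw [pderiv_monomial, LF_monomial, LF_monomial, LF_monomial, wt_split F _ i, wt_split F k i,
      wt_split (F.erase i) k i, if_pos hi, if_pos hi, if_neg (Finset.notMem_erase i F)]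
    have h1 : ∏ j ∈ Finset.univ.erase i, (if j ∈ F then (((k - Finsupp.single i 1 : σ →₀ ℕ) j).factorial : ℂ) else
        if (k - Finsupp.single i 1 : σ →₀ ℕ) j = 0 then 1 else 0) =
        ∏ j ∈ Finset.univ.erase i, (if j ∈ F then ((k j).factorial : ℂ) else if k j = 0 then 1 else 0) := by
      refine Finset.prod_congr rfl ?_
      intro j hj
      have hji : j ≠ i := Finset.ne_of_mem_erase hj
      have h2 : (k - Finsupp.single i 1 : σ →₀ ℕ) j = k j := by
        rw [Finsupp.tsub_apply, Finsupp.single_apply, if_neg (fun h => hji h.symm), Nat.sub_zero]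
      rw [h2]
    have h3 : ∏ j ∈ Finset.univ.erase i, (if j ∈ F.erase i then ((k j).factorial : ℂ) else
        if k j = 0 then 1 else 0) =
        ∏ j ∈ Finset.univ.erase i, (if j ∈ F then ((k j).factorial : ℂ) else if k j = 0 then 1 else 0) := by
      refine Finset.prod_congr rfl ?_
      intro j hj
      have hji : j ≠ i := Finset.ne_of_mem_erase hj
      have h2 : j ∈ F.erase i ↔ j ∈ F := by
        rw [Finset.mem_erase]
        exact ⟨fun h => h.2, fun h => ⟨hji, h⟩⟩
      simp only [h2]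
    rw [h1, h3]
    generalize (∏ j ∈ Finset.univ.erase i, (if j ∈ F then ((k j).factorial : ℂ) else if k j = 0 then 1 else 0)) = W
    have h4 : (k - Finsupp.single i 1 : σ →₀ ℕ) i = k i - 1 := by
      rw [Finsupp.tsub_apply, Finsupp.single_eq_same]
    rw [h4]
    rcases Nat.eq_zero_or_pos (k i) with h5 | h5
    · rw [h5]
      simp
    · obtain ⟨n, hn⟩ : ∃ n, k i = n + 1 := ⟨k i - 1, by omega⟩
      rw [hn, if_neg (Nat.succ_ne_zero n), Nat.add_sub_cancel, Nat.factorial_succ]
      push_cast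
      ring
  | add p q hp hq =>
    rw [map_add, map_add, map_add, map_add, hp, hq]
    ring

/-- `∑_m z^m L_F (g f^m) / m!` -/
noncomputable def II (f : MvPolynomial σ ℂ) (F : Finset σ) (g : MvPolynomial σ ℂ) : LS :=
  HahnSeries.ofSuppBddBelow
    (fun n : ℤ => if 0 ≤ n then LF F (g * f ^ n.toNat) / ((n.toNat).factorial : ℂ) else 0)
    ⟨0, by
      intro n hn
      rw [Function.mem_support] at hn
      by_contra h
      exact hn (if_neg h)⟩

variable (f : MvPolynomial σ ℂ)

theorem II_nat (F : Finset σ) (g : MvPolynomial σ ℂ) (n : ℕ) :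
    (II f F g).coeff (n : ℤ) = LF F (g * f ^ n) / (n.factorial : ℂ) := by
  rw [II, HahnSeries.coeff_ofSuppBddBelow]
  rw [if_pos (Int.natCast_nonneg n), Int.toNat_natCast]

theorem II_neg (F : Finset σ) (g : MvPolynomial σ ℂ) {n : ℤ} (hn : n < 0) : (II f F g).coeff n = 0 := by
  rw [II, HahnSeries.coeff_ofSuppBddBelow]
  rw [if_neg (not_le.2 hn)]

/-- three cases -/
theorem ext3 {y w : LS} (h1 : ∀ n : ℕ, y.coeff (n : ℤ) = w.coeff (n : ℤ)) (h2 : y.coeff (-1) = w.coeff (-1))
    (h3 : ∀ n : ℤ, n < -1 → y.coeff n = w.coeff n) : y = w := by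
  ext n
  rcases lt_trichotomy n (-1) with h | h | h
  · exact h3 n h
  · rw [h, h2]
  · obtain ⟨k, rfl⟩ : ∃ k : ℕ, n = k := ⟨n.toNat, by omega⟩
    exact h1 k

theorem II_add (F : Finset σ) (g h : MvPolynomial σ ℂ) : II f F (g + h) = II f F g + II f F h := by
  refine ext3 ?_ ?_ ?_
  · intro n
    rw [HahnSeries.coeff_add, II_nat, II_nat, II_nat, add_mul, map_add]
    ring
  · rw [HahnSeries.coeff_add, II_neg, II_neg, II_neg, add_zero] <;> omega
  · intro n hn
    rw [HahnSeries.coeff_add, II_neg, II_neg, II_neg, add_zero] <;> omega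

theorem II_smul (F : Finset σ) (c : ℂ) (g : MvPolynomial σ ℂ) : II f F (c • g) = c • II f F g := by
  refine ext3 ?_ ?_ ?_
  · intro n
    rw [HahnSeries.coeff_smul, II_nat, II_nat, smul_mul_assoc, map_smul, smul_eq_mul, smul_eq_mul]
    ring
  · rw [HahnSeries.coeff_smul, II_neg, II_neg, smul_zero] <;> omega
  · intro n hn
    rw [HahnSeries.coeff_smul, II_neg, II_neg, smul_zero] <;> omega

/-- as a linear map -/
noncomputable def IL (F : Finset σ) : MvPolynomial σ ℂ →ₗ[ℂ] LS where
  toFun := II f F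
  map_add' := II_add f F
  map_smul' := II_smul f F

theorem IL_apply (F : Finset σ) (g : MvPolynomial σ ℂ) : IL f F g = II f F g := rfl

theorem IL_C_mul (F : Finset σ) (c : ℂ) (g : MvPolynomial σ ℂ) :
    IL f F (C c * g) = algebraMap ℂ LS c * IL f F g := by
  rw [← smul_eq_C_mul, map_smul]
  exact Algebra.smul_def (A := LS) c (IL f F g)

/-- `d/dz` is the multiplication by `f` -/
theorem DD_IL (F : Finset σ) (g : MvPolynomial σ ℂ) : DD (IL f F g) = IL f F (g * f) := by
  rw [IL_apply, IL_apply]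
  refine ext3 ?_ ?_ ?_
  · intro n
    rw [DD_coeff]
    have h : ((n : ℤ) + 1) = ((n + 1 : ℕ) : ℤ) := by push_cast; ring
    rw [h, II_nat, II_nat, Nat.factorial_succ, pow_succ']
    have h1 : ((n.factorial : ℕ) : ℂ) ≠ 0 := by exact_mod_cast n.factorial_ne_zero
    have h2 : ((n + 1 : ℕ) : ℂ) ≠ 0 := by exact_mod_cast Nat.succ_ne_zero n
    rw [mul_assoc g f]
    push_cast at h2 ⊢
    field_simp
  · rw [DD_coeff, II_neg f F (g * f) (by omega : (-1 : ℤ) < 0)]
    simp
  · intro n hn
    rw [DD_coeff, II_neg f F g (by omega : n + 1 < 0), II_neg f F (g * f) (by omega : n < 0), mul_zero]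

/-- integration by parts -/
theorem IL_parts {F : Finset σ} {i : σ} (hi : i ∈ F) (g : MvPolynomial σ ℂ) :
    IL f F (g * pderiv i f) = xx * IL f F g - xx * IL f F (pderiv i g) - xx * IL f (F.erase i) g := by
  simp only [IL_apply]
  refine ext3 ?_ ?_ ?_
  · intro n
    rw [HahnSeries.coeff_sub, HahnSeries.coeff_sub, xx_mul_coeff, xx_mul_coeff, xx_mul_coeff]
    have h : ((n : ℤ) + 1) = ((n + 1 : ℕ) : ℤ) := by push_cast; ring
    rw [h, II_nat, II_nat, II_nat, II_nat]
    have h3 := LF_pderiv hi (g * f ^ (n + 1))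
    have h4 : pderiv i (g * f ^ (n + 1)) = pderiv i g * f ^ (n + 1) + ((n + 1 : ℕ) : ℂ) • (g * pderiv i f * f ^ n) := by
      rw [pderiv_mul, pderiv_pow, Nat.add_sub_cancel, smul_eq_C_mul, map_natCast]
      ring
    rw [h4, map_add, map_smul, smul_eq_mul] at h3
    have h1 : ((n.factorial : ℕ) : ℂ) ≠ 0 := by exact_mod_cast n.factorial_ne_zero
    have h2 : ((n + 1 : ℕ) : ℂ) ≠ 0 := by exact_mod_cast Nat.succ_ne_zero n
    rw [Nat.factorial_succ, Nat.cast_mul]
    field_simp
    linear_combination h3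
  · rw [HahnSeries.coeff_sub, HahnSeries.coeff_sub, xx_mul_coeff, xx_mul_coeff, xx_mul_coeff,
      II_neg _ _ _ (by omega)]
    have h : ((-1 : ℤ) + 1) = ((0 : ℕ) : ℤ) := by norm_num
    rw [h, II_nat, II_nat, II_nat, pow_zero, mul_one, mul_one, LF_pderiv hi g]
    simp
  · intro n hn
    rw [HahnSeries.coeff_sub, HahnSeries.coeff_sub, xx_mul_coeff, xx_mul_coeff, xx_mul_coeff,
      II_neg _ _ _ (by omega), II_neg _ _ _ (by omega), II_neg _ _ _ (by omega), II_neg _ _ _ (by omega)]
    simp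

theorem IL_X_mul {F : Finset σ} {j : σ} (hj : j ∉ F) (g : MvPolynomial σ ℂ) : IL f F (X j * g) = 0 := by
  rw [IL_apply]
  refine ext3 ?_ ?_ ?_
  · intro n
    rw [II_nat, mul_assoc, LF_X_mul hj, zero_div, HahnSeries.coeff_zero]
  · rw [II_neg _ _ _ (by omega), HahnSeries.coeff_zero]
  · intro n hn
    rw [II_neg _ _ _ (by omega), HahnSeries.coeff_zero]

/-- if `f` vanishes on the face -/
theorem IL_const {F : Finset σ} (hf : ∀ h, LF F (h * f) = 0) (g : MvPolynomial σ ℂ) :
    IL f F g = algebraMap ℂ LS (LF F g) := by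
  rw [IL_apply]
  have h0 : algebraMap ℂ LS (LF F g) = HahnSeries.single 0 (LF F g) := by
    rw [HahnSeries.algebraMap_apply]
    rfl
  rw [h0]
  refine ext3 ?_ ?_ ?_
  · intro n
    rw [II_nat, HahnSeries.coeff_single]
    rcases Nat.eq_zero_or_pos n with h | h
    · subst h
      simp
    · obtain ⟨k, rfl⟩ : ∃ k, n = k + 1 := ⟨n - 1, by omega⟩
      rw [if_neg (by omega), pow_succ, ← mul_assoc, hf, zero_div]
  · rw [II_neg _ _ _ (by omega), HahnSeries.coeff_single, if_neg (by omega)]
  · intro n hn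
    rw [II_neg _ _ _ (by omega), HahnSeries.coeff_single, if_neg (by omega)]

/-- all moments zero -/
theorem IL_one (F : Finset σ) (hf : ∀ m : ℕ, 1 ≤ m → LF F (f ^ m) = 0) : IL f F 1 = algebraMap ℂ LS (LF F 1) := by
  rw [IL_apply]
  have h0 : algebraMap ℂ LS (LF F 1) = HahnSeries.single 0 (LF F 1) := by
    rw [HahnSeries.algebraMap_apply]
    rfl
  rw [h0]
  refine ext3 ?_ ?_ ?_
  · intro n
    rw [II_nat, HahnSeries.coeff_single]
    rcases Nat.eq_zero_or_pos n with h | h
    · subst h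
      simp
    · rw [if_neg (by omega), one_mul, hf n h, zero_div]
  · rw [II_neg _ _ _ (by omega), HahnSeries.coeff_single, if_neg (by omega)]
  · intro n hn
    rw [II_neg _ _ _ (by omega), HahnSeries.coeff_single, if_neg (by omega)]

end Pool.Agent.FCQ
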