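import Pool.Agent.FCQ.Int

/-!
# FCQ : quadratic polynomials
-/

set_option autoImplicit false

open MvPolynomial

attribute [-instance] HahnSeries.powerSeriesAlgebra

namespace Pool.Agent.FCQ

variable {σ : Type} [Fintype σ] [DecidableEq σ]

/-- scalars -/
noncomputable abbrev ka : ℂ →+* LS := algebraMap ℂ LS

theorem dec_zero_IL (f : MvPolynomial σ ℂ) (F : Finset σ) : Dec SS (IL f F 0) := by
  rw [map_zero]
  exact Dec.zero

/-! ### induction over monomials -/

theorem mono_ind (P : MvPolynomial σ ℂ → Prop) (hadd : ∀ g h, P g → P h → P (g + h))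
    (hstep : ∀ k : σ →₀ ℕ, (∀ k' : σ →₀ ℕ, k'.degree < k.degree → ∀ c, P (monomial k' c)) → ∀ c, P (monomial k c)) :
    ∀ g, P g := by
  have key : ∀ n : ℕ, ∀ k : σ →₀ ℕ, k.degree = n → ∀ c, P (monomial k c) := by
    intro n
    induction n using Nat.strong_induction_on with
    | _ n ih =>
      intro k hk c
      refine hstep k ?_ c
      intro k' hk' c'
      exact ih k'.degree (hk ▸ hk') k' rfl c'
  intro g
  induction g using MvPolynomial.induction_on' with
  | monomial k c => exact key _ k rfl c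
  | add p q hp hq => exact hadd p q hp hq

theorem degree_sub {k : σ →₀ ℕ} {i : σ} (h : k i ≠ 0) : (k - Finsupp.single i 1 : σ →₀ ℕ).degree < k.degree := by
  have h1 : k = (k - Finsupp.single i 1) + Finsupp.single i 1 := by
    ext j
    rw [Finsupp.add_apply, Finsupp.tsub_apply, Finsupp.single_apply]
    split_ifs with h2
    · subst h2
      omega
    · omega
  conv_rhs => rw [h1]
  rw [map_add, Finsupp.degree_single]
  omega

theorem pd_lower {P : MvPolynomial σ ℂ → Prop} (h0 : P 0) {k : σ →₀ ℕ}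
    (hk : ∀ k' : σ →₀ ℕ, k'.degree < k.degree → ∀ c, P (monomial k' c)) (i : σ) (c : ℂ) :
    P (pderiv i (monomial k c)) := by
  rw [pderiv_monomial]
  by_cases h : k i = 0
  · rw [h, Nat.cast_zero, mul_zero, monomial_zero]
    exact h0
  · exact hk _ (degree_sub h) _

/-! ### linear algebra -/

theorem dichotomy (a : σ → σ → ℂ) (ha : ∀ i j, a i j = a j i) (F : Finset σ) :
    (∃ κ : σ → ℂ, (∃ i ∈ F, κ i ≠ 0) ∧ ∀ i ∈ F, ∑ j ∈ F, a i j * κ j = 0) ∨
    (∃ p : σ → σ → ℂ, (∀ i ∈ F, ∀ j ∈ F, p i j = p j i) ∧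
      ∀ l ∈ F, ∀ i ∈ F, ∑ j ∈ F, a l j * p j i = if l = i then 1 else 0) := by
  let A : Matrix F F ℂ := Matrix.of fun i j => a i j
  by_cases hdet : A.det = 0
  · left
    obtain ⟨v, hv0, hv⟩ := Matrix.exists_mulVec_eq_zero_iff.2 hdet
    refine ⟨fun i => if h : i ∈ F then v ⟨i, h⟩ else 0, ?_, ?_⟩
    · by_contra h
      push Not at h
      apply hv0
      ext i
      have := h i i.2
      rw [dif_pos i.2] at this
      exact this
    · intro i hi
      have h1 := congrFun hv ⟨i, hi⟩
      rw [Matrix.mulVec, dotProduct, Pi.zero_apply] at h1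
      refine Eq.trans ?_ h1
      rw [← Finset.sum_coe_sort F]
      refine Finset.sum_congr rfl ?_
      intro j _
      beta_reduce
      rw [dif_pos j.2]
      rfl
  · right
    have hsymm : A.transpose = A := by
      ext i j
      exact ha j i
    have hinv : (A⁻¹).transpose = A⁻¹ := by
      rw [Matrix.transpose_nonsing_inv, hsymm]
    have hunit : IsUnit A.det := isUnit_iff_ne_zero.2 hdet
    refine ⟨fun i j => if h : i ∈ F ∧ j ∈ F then A⁻¹ ⟨i, h.1⟩ ⟨j, h.2⟩ else 0, ?_, ?_⟩
    · intro i hi j hj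
      beta_reduce
      rw [dif_pos (And.intro hi hj), dif_pos (And.intro hj hi)]
      have := congrFun (congrFun hinv ⟨i, hi⟩) ⟨j, hj⟩
      rw [Matrix.transpose_apply] at this
      exact this.symm
    · intro l hl i hi
      have h1 := congrFun (congrFun (Matrix.mul_nonsing_inv A hunit) ⟨l, hl⟩) ⟨i, hi⟩
      rw [Matrix.mul_apply, Matrix.one_apply] at h1
      have h2 : (if l = i then (1 : ℂ) else 0) = if (⟨l, hl⟩ : F) = ⟨i, hi⟩ then 1 else 0 := by
        by_cases h : l = i
        · rw [if_pos h, if_pos (Subtype.ext h)]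
        · rw [if_neg h, if_neg (fun h' => h (congrArg Subtype.val h'))]
      rw [h2]
      refine Eq.trans ?_ h1
      rw [← Finset.sum_coe_sort F]
      refine Finset.sum_congr rfl ?_
      intro j _
      beta_reduce
      rw [dif_pos (And.intro j.2 hi)]
      rfl

/-! ### quadratic polynomials -/

variable (a : σ → σ → ℂ) (b : σ → ℂ)

/-- `∑ a_ij X_i X_j + ∑ b_i X_i` -/
noncomputable def qf : MvPolynomial σ ℂ := ∑ i, ∑ j, C (a i j) * (X i * X j) + ∑ i, C (b i) * X i

/-- `qf` vanishes on the face -/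
def ZF (F : Finset σ) : Prop := (∀ i ∈ F, ∀ j ∈ F, a i j = 0) ∧ ∀ i ∈ F, b i = 0

theorem pderiv_qf (ha : ∀ i j, a i j = a j i) (l : σ) :
    pderiv l (qf a b) = 2 * ∑ j, C (a l j) * X j + C (b l) := by
  unfold qf
  rw [map_add, map_sum, map_sum]
  have h1 : ∀ i : σ, pderiv l (∑ j, C (a i j) * (X i * X j) : MvPolynomial σ ℂ) =
      (if i = l then ∑ j, C (a i j) * X j else 0) + C (a l i) * X i := by
    intro i
    rw [map_sum]
    have h2 : ∀ j : σ, pderiv l (C (a i j) * (X i * X j) : MvPolynomial σ ℂ) =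
        (if i = l then C (a i j) * X j else 0) + (if j = l then C (a i j) * X i else 0) := by
      intro j
      rw [pderiv_C_mul, pderiv_mul, pderiv_X, pderiv_X, Pi.single_apply, Pi.single_apply]
      by_cases h : i = l
      · by_cases h' : j = l
        · rw [if_pos h, if_pos h, if_pos h', if_pos h']
          ring
        · rw [if_pos h, if_pos h, if_neg h', if_neg h']
          ring
      · by_cases h' : j = l
        · rw [if_neg h, if_neg h, if_pos h', if_pos h']
          ring
        · rw [if_neg h, if_neg h, if_neg h', if_neg h']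
          ring
    rw [Finset.sum_congr rfl fun j _ => h2 j, Finset.sum_add_distrib, Finset.sum_ite_eq' Finset.univ l,
      if_pos (Finset.mem_univ l), ha i l]
    congr 1
    by_cases h : i = l
    · simp [h]
    · simp [h]
  have h3 : ∀ i : σ, pderiv l (C (b i) * X i : MvPolynomial σ ℂ) = if i = l then C (b i) else 0 := by
    intro i
    rw [pderiv_C_mul, pderiv_X, Pi.single_apply]
    by_cases h : i = l
    · rw [if_pos h, if_pos h, mul_one]
    · rw [if_neg h, if_neg h, mul_zero]
  rw [Finset.sum_congr rfl fun i _ => h1 i, Finset.sum_congr rfl fun i _ => h3 i, Finset.sum_add_distrib,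
    Finset.sum_ite_eq' Finset.univ l, if_pos (Finset.mem_univ l), Finset.sum_ite_eq' Finset.univ l,
    if_pos (Finset.mem_univ l)]
  ring

theorem ZF_LF {F : Finset σ} (hZ : ZF a b F) (h : MvPolynomial σ ℂ) : LF F (h * qf a b) = 0 := by
  unfold qf
  rw [mul_add, map_add, Finset.mul_sum, Finset.mul_sum, map_sum, map_sum]
  rw [Finset.sum_eq_zero, Finset.sum_eq_zero, add_zero]
  · intro i _
    by_cases hi : i ∈ F
    · rw [hZ.2 i hi]
      simp
    · have e : h * (C (b i) * X i) = X i * (h * C (b i)) := by ring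
      rw [e, LF_X_mul hi]
  · intro i _
    rw [Finset.mul_sum, map_sum]
    refine Finset.sum_eq_zero ?_
    intro j _
    by_cases hi : i ∈ F
    · by_cases hj : j ∈ F
      · rw [hZ.1 i hi j hj]
        simp
      · have e : h * (C (a i j) * (X i * X j)) = X j * (h * C (a i j) * X i) := by ring
        rw [e, LF_X_mul hj]
    · have e : h * (C (a i j) * (X i * X j)) = X i * (h * C (a i j) * X j) := by ring
      rw [e, LF_X_mul hi]

theorem LF_one (F : Finset σ) : LF F 1 = 1 := by
  have h : (1 : MvPolynomial σ ℂ) = monomial 0 1 := rfl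
  rw [h, LF_monomial, one_mul, wt]
  refine Finset.prod_eq_one ?_
  intro i _
  simp

/-- integration by parts for a quadratic polynomial -/
theorem parts (ha : ∀ i j, a i j = a j i) {F : Finset σ} {l : σ} (hl : l ∈ F) (g : MvPolynomial σ ℂ) :
    2 * ∑ j ∈ F, ka (a l j) * IL (qf a b) F (X j * g) + ka (b l) * IL (qf a b) F g =
      xx * IL (qf a b) F g - xx * IL (qf a b) F (pderiv l g) - xx * IL (qf a b) (F.erase l) g := by
  rw [← IL_parts (qf a b) hl g, pderiv_qf a b ha]
  have hC : (C 2 : MvPolynomial σ ℂ) = 2 := map_ofNat C 2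
  have hs : ∑ j, g * (C (a l j) * X j) = ∑ j, C (a l j) * (X j * g) := by
    refine Finset.sum_congr rfl ?_
    intro j _
    ring
  have e : g * (2 * ∑ j, C (a l j) * X j + C (b l)) =
      C 2 * (∑ j, C (a l j) * (X j * g)) + C (b l) * g := by
    rw [mul_add, mul_left_comm, Finset.mul_sum, hs, hC, mul_comm g (C (b l))]
  have h1 : ∀ j : σ, IL (qf a b) F (C (a l j) * (X j * g)) = ka (a l j) * IL (qf a b) F (X j * g) :=
    fun j => IL_C_mul _ _ _ _
  have h2 : IL (qf a b) F (∑ j, C (a l j) * (X j * g)) = ∑ j ∈ F, ka (a l j) * IL (qf a b) F (X j * g) := by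
    rw [map_sum, Finset.sum_congr rfl fun j _ => h1 j]
    symm
    refine Finset.sum_subset (Finset.subset_univ F) ?_
    intro j _ hj
    rw [IL_X_mul _ hj, mul_zero]
  rw [e, map_add, IL_C_mul, IL_C_mul, h2, map_ofNat]

/-- the differential equation of `I F 1`, first form -/
theorem DD_one (ha : ∀ i j, a i j = a j i) (F : Finset σ) :
    2 * DD (IL (qf a b) F 1) = ∑ i ∈ F, (xx + ka (b i)) * IL (qf a b) F (X i) -
      ka (F.card : ℂ) * xx * IL (qf a b) F 1 := by
  have h2 : (2 : MvPolynomial σ ℂ) * qf a b = ∑ i, X i * pderiv i (qf a b) + ∑ i, C (b i) * X i := by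
    have h3 : ∀ i : σ, X i * pderiv i (qf a b) = 2 * ∑ j, C (a i j) * (X i * X j) + C (b i) * X i := by
      intro i
      have hs : ∑ j, (X i * (C (a i j) * X j) : MvPolynomial σ ℂ) = ∑ j, C (a i j) * (X i * X j) := by
        refine Finset.sum_congr rfl ?_
        intro j _
        ring
      rw [pderiv_qf a b ha, mul_add, mul_left_comm, Finset.mul_sum, hs, mul_comm (X i) (C (b i))]
    rw [Finset.sum_congr rfl fun i _ => h3 i, Finset.sum_add_distrib, ← Finset.mul_sum]
    unfold qf
    ring
  have h4 : 2 * DD (IL (qf a b) F 1) = IL (qf a b) F (2 * qf a b) := by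
    rw [DD_IL, one_mul]
    have : (2 : MvPolynomial σ ℂ) * qf a b = C 2 * qf a b := by
      rw [show (C 2 : MvPolynomial σ ℂ) = 2 from map_ofNat C 2]
    rw [this, IL_C_mul, map_ofNat]
  rw [h4, h2, map_add, map_sum, map_sum]
  have h5 : ∀ i ∈ F, IL (qf a b) F (X i * pderiv i (qf a b)) =
      xx * IL (qf a b) F (X i) - xx * IL (qf a b) F 1 := by
    intro i hi
    rw [IL_parts (qf a b) hi, pderiv_X_self]
    have : IL (qf a b) (F.erase i) (X i) = 0 := by
      have := IL_X_mul (qf a b) (Finset.notMem_erase i F) 1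
      rwa [mul_one] at this
    rw [this, mul_zero, sub_zero]
  have h6 : ∑ i, IL (qf a b) F (X i * pderiv i (qf a b)) = ∑ i ∈ F, IL (qf a b) F (X i * pderiv i (qf a b)) := by
    symm
    refine Finset.sum_subset (Finset.subset_univ F) ?_
    intro j _ hj
    rw [IL_X_mul _ hj]
  have h7 : ∑ i, IL (qf a b) F (C (b i) * X i) = ∑ i ∈ F, ka (b i) * IL (qf a b) F (X i) := by
    have h8 : ∀ i : σ, IL (qf a b) F (C (b i) * X i) = ka (b i) * IL (qf a b) F (X i) := fun i => IL_C_mul _ _ _ _
    rw [Finset.sum_congr rfl fun i _ => h8 i]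
    symm
    refine Finset.sum_subset (Finset.subset_univ F) ?_
    intro j _ hj
    have := IL_X_mul (qf a b) hj 1
    rw [mul_one] at this
    rw [this, mul_zero]
  rw [h6, h7, Finset.sum_congr rfl h5, Finset.sum_sub_distrib, Finset.sum_const, nsmul_eq_mul]
  have h9 : ∑ i ∈ F, (xx + ka (b i)) * IL (qf a b) F (X i) =
      ∑ i ∈ F, xx * IL (qf a b) F (X i) + ∑ i ∈ F, ka (b i) * IL (qf a b) F (X i) := by
    rw [← Finset.sum_add_distrib]
    refine Finset.sum_congr rfl ?_
    intro i _
    ring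
  rw [h9, map_natCast]
  ring

end Pool.Agent.FCQ
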