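import Pool.Agent.FCQ.Quad

/-!
# FCQ : all the generating functions of a quadratic polynomial are decaying
-/

set_option autoImplicit false

open MvPolynomial

attribute [-instance] HahnSeries.powerSeriesAlgebra

namespace Pool.Agent.FCQ

variable {σ : Type} [Fintype σ] [DecidableEq σ] (a : σ → σ → ℂ) (b : σ → ℂ)

theorem dec_xx : Dec SS xx := Dec.x (S := SS)

theorem dec_const_xx (c : ℂ) : Dec SS (xx * ka c) := by
  rw [mul_comm]
  exact dec_xx.c_mul c

theorem dec_xmul {y : LS} (h : Dec SS y) : Dec SS (xx * y) := h.mul_left xx_mem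

theorem dec_kmul {y : LS} (c : ℂ) (h : Dec SS y) : Dec SS (ka c * y) := h.c_mul c

/-- `x I F g` is always decaying once `I F g` is decaying when `F` is not degenerate -/
theorem dec_face {F : Finset σ} (h : ¬ ZF a b F → ∀ g, Dec SS (IL (qf a b) F g)) (g : MvPolynomial σ ℂ) :
    Dec SS (xx * IL (qf a b) F g) := by
  by_cases hZ : ZF a b F
  · rw [IL_const (qf a b) (ZF_LF a b hZ)]
    exact dec_const_xx _
  · exact dec_xmul (h hZ g)

/-! ### the nonsingular case -/

/-- `2 I F (X_i g)` -/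
theorem ns_mul (ha : ∀ i j, a i j = a j i) {F : Finset σ} {p : σ → σ → ℂ}
    (hp : ∀ i ∈ F, ∀ j ∈ F, p i j = p j i)
    (hap : ∀ l ∈ F, ∀ i ∈ F, ∑ j ∈ F, a l j * p j i = if l = i then 1 else 0) {i : σ} (hi : i ∈ F)
    (g : MvPolynomial σ ℂ) :
    2 * IL (qf a b) F (X i * g) = ∑ l ∈ F, ka (p i l) * (xx * IL (qf a b) F g - xx * IL (qf a b) F (pderiv l g) -
      xx * IL (qf a b) (F.erase l) g - ka (b l) * IL (qf a b) F g) := by
  have h1 : ∀ l ∈ F, ka (p i l) * (xx * IL (qf a b) F g - xx * IL (qf a b) F (pderiv l g) -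
      xx * IL (qf a b) (F.erase l) g - ka (b l) * IL (qf a b) F g) =
      ∑ j ∈ F, 2 * (ka (a j l * p l i) * IL (qf a b) F (X j * g)) := by
    intro l hl
    rw [← parts a b ha hl g, add_sub_cancel_right, Finset.mul_sum, Finset.mul_sum]
    refine Finset.sum_congr rfl ?_
    intro j hj
    rw [map_mul ka, hp i hi l hl, ha l j]
    ring
  rw [Finset.sum_congr rfl h1, Finset.sum_comm]
  have h2 : ∀ j ∈ F, ∑ l ∈ F, 2 * (ka (a j l * p l i) * IL (qf a b) F (X j * g)) =
      if j = i then 2 * IL (qf a b) F (X j * g) else 0 := by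
    intro j hj
    rw [← Finset.mul_sum, ← Finset.sum_mul, ← map_sum, hap j hj i hi]
    split_ifs
    · rw [map_one, one_mul]
    · rw [map_zero, zero_mul, mul_zero]
  rw [Finset.sum_congr rfl h2, Finset.sum_ite_eq', if_pos hi]

/-- the differential equation of `I F 1` in the nonsingular case -/
theorem ns_ode (ha : ∀ i j, a i j = a j i) {F : Finset σ} {p : σ → σ → ℂ}
    (hp : ∀ i ∈ F, ∀ j ∈ F, p i j = p j i)
    (hap : ∀ l ∈ F, ∀ i ∈ F, ∑ j ∈ F, a l j * p j i = if l = i then 1 else 0) :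
    4 * DD (IL (qf a b) F 1) = (ka (∑ i ∈ F, ∑ l ∈ F, p i l) * xx ^ 2 - 2 * ka (F.card : ℂ) * xx -
      ka (∑ i ∈ F, b i * ∑ l ∈ F, p i l * b l)) * IL (qf a b) F 1 -
      xx * ∑ l ∈ F, (xx * ka (∑ i ∈ F, p l i) + ka (∑ i ∈ F, p l i * b i)) * IL (qf a b) (F.erase l) 1 := by
  set e := IL (qf a b) F 1 with he
  have h1 := DD_one a b ha F
  have h2 : ∀ i ∈ F, 2 * IL (qf a b) F (X i) = ∑ l ∈ F, ka (p i l) * (xx * e - ka (b l) * e) -
      ∑ l ∈ F, ka (p i l) * (xx * IL (qf a b) (F.erase l) 1) := by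
    intro i hi
    have h3 := ns_mul a b ha hp hap hi 1
    rw [mul_one] at h3
    rw [h3, ← Finset.sum_sub_distrib]
    refine Finset.sum_congr rfl ?_
    intro l _
    rw [pderiv_one, map_zero]
    ring
  have h4 : 4 * DD e = ∑ i ∈ F, (xx + ka (b i)) * (2 * IL (qf a b) F (X i)) - 2 * ka (F.card : ℂ) * xx * e := by
    have : (4 : LS) * DD e = 2 * (2 * DD e) := by ring
    rw [this, he, h1, mul_sub, Finset.mul_sum]
    have h5 : ∀ i ∈ F, (2 : LS) * ((xx + ka (b i)) * IL (qf a b) F (X i)) =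
        (xx + ka (b i)) * (2 * IL (qf a b) F (X i)) := by
      intro i _
      ring
    rw [Finset.sum_congr rfl h5]
    ring
  have h6 : ∀ i ∈ F, (xx + ka (b i)) * (2 * IL (qf a b) F (X i)) =
      ∑ l ∈ F, ((ka (p i l) * xx ^ 2 + ka (b i * p i l) * xx - ka (p i l * b l) * xx - ka (b i * (p i l * b l))) * e) -
      ∑ l ∈ F, (xx * ((xx * ka (p i l) + ka (b i * p i l)) * IL (qf a b) (F.erase l) 1)) := by
    intro i hi
    rw [h2 i hi, mul_sub, Finset.mul_sum, Finset.mul_sum]
    have h7 : ∀ l ∈ F, (xx + ka (b i)) * (ka (p i l) * (xx * e - ka (b l) * e)) =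
        (ka (p i l) * xx ^ 2 + ka (b i * p i l) * xx - ka (p i l * b l) * xx - ka (b i * (p i l * b l))) * e := by
      intro l _
      rw [map_mul, map_mul, map_mul, map_mul]
      ring
    have h8 : ∀ l ∈ F, (xx + ka (b i)) * (ka (p i l) * (xx * IL (qf a b) (F.erase l) 1)) =
        xx * ((xx * ka (p i l) + ka (b i * p i l)) * IL (qf a b) (F.erase l) 1) := by
      intro l _
      rw [map_mul]
      ring
    rw [Finset.sum_congr rfl h7, Finset.sum_congr rfl h8]
  rw [h4, Finset.sum_congr rfl h6, Finset.sum_sub_distrib]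
  have h9 : ∑ i ∈ F, ∑ l ∈ F, ((ka (p i l) * xx ^ 2 + ka (b i * p i l) * xx - ka (p i l * b l) * xx -
      ka (b i * (p i l * b l))) * e) = (ka (∑ i ∈ F, ∑ l ∈ F, p i l) * xx ^ 2 -
      ka (∑ i ∈ F, b i * ∑ l ∈ F, p i l * b l)) * e := by
    have h10 : ∑ i ∈ F, ∑ l ∈ F, b i * p i l = ∑ i ∈ F, ∑ l ∈ F, p i l * b l := by
      rw [Finset.sum_comm]
      refine Finset.sum_congr rfl fun l hl => Finset.sum_congr rfl fun i hi => ?_
      rw [hp i hi l hl, mul_comm]
    have h11 : ∑ i ∈ F, ∑ l ∈ F, b i * (p i l * b l) = ∑ i ∈ F, b i * ∑ l ∈ F, p i l * b l := by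
      refine Finset.sum_congr rfl fun l hl => ?_
      rw [Finset.mul_sum]
    have h12 : ∑ i ∈ F, ∑ l ∈ F, ((ka (p i l) * xx ^ 2 + ka (b i * p i l) * xx - ka (p i l * b l) * xx -
      ka (b i * (p i l * b l))) * e) = (ka (∑ i ∈ F, ∑ l ∈ F, p i l) * xx ^ 2 + ka (∑ i ∈ F, ∑ l ∈ F, b i * p i l) * xx -
        ka (∑ i ∈ F, ∑ l ∈ F, p i l * b l) * xx - ka (∑ i ∈ F, ∑ l ∈ F, b i * (p i l * b l))) * e := by
      simp only [map_sum, Finset.sum_mul, ← Finset.sum_add_distrib, ← Finset.sum_sub_distrib]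
    rw [h12, h10, h11]
    ring
  have h13 : ∑ i ∈ F, ∑ l ∈ F, (xx * ((xx * ka (p i l) + ka (b i * p i l)) * IL (qf a b) (F.erase l) 1)) =
      xx * ∑ l ∈ F, (xx * ka (∑ i ∈ F, p l i) + ka (∑ i ∈ F, p l i * b i)) * IL (qf a b) (F.erase l) 1 := by
    rw [Finset.sum_comm, Finset.mul_sum]
    refine Finset.sum_congr rfl ?_
    intro l hl
    rw [← Finset.mul_sum, ← Finset.sum_mul, Finset.sum_add_distrib, ← Finset.mul_sum, ← map_sum, ← map_sum]
    have h14 : ∑ i ∈ F, p i l = ∑ i ∈ F, p l i := Finset.sum_congr rfl fun i hi => hp i hi l hl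
    have h15 : ∑ i ∈ F, b i * p i l = ∑ i ∈ F, p l i * b i := by
      refine Finset.sum_congr rfl fun i hi => ?_
      rw [hp i hi l hl, mul_comm]
    rw [h14, h15]
  rw [h9, h13]
  ring

/-- no bad constant -/
theorem ns_const (ha : ∀ i j, a i j = a j i) {F : Finset σ} {p : σ → σ → ℂ}
    (hap : ∀ l ∈ F, ∀ i ∈ F, ∑ j ∈ F, a l j * p j i = if l = i then 1 else 0) {l : σ} (hl : l ∈ F)
    (hZ : ZF a b (F.erase l)) (hw : ∑ i ∈ F, p l i * b i ≠ 0) :
    ∑ i ∈ F, b i * ∑ j ∈ F, p i j * b j ≠ 0 := by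
  set w : σ → ℂ := fun i => ∑ j ∈ F, p i j * b j with hwdef
  have haw : ∀ i ∈ F, ∑ j ∈ F, a i j * w j = b i := by
    intro i hi
    simp only [hwdef, Finset.mul_sum]
    rw [Finset.sum_comm]
    have h1 : ∀ m ∈ F, ∑ j ∈ F, a i j * (p j m * b m) = (if i = m then b m else 0) := by
      intro m hm
      have h2 : ∑ j ∈ F, a i j * (p j m * b m) = (∑ j ∈ F, a i j * p j m) * b m := by
        rw [Finset.sum_mul]
        refine Finset.sum_congr rfl fun j _ => by ring
      rw [h2, hap i hi m hm]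
      split_ifs <;> ring
    rw [Finset.sum_congr rfl h1, Finset.sum_ite_eq, if_pos hi]
  have hwl : w l ≠ 0 := hw
  have hb : ∀ i ∈ F, i ≠ l → b i = 0 := fun i hi h => hZ.2 i (Finset.mem_erase.2 ⟨h, hi⟩)
  have hail : ∀ i ∈ F, i ≠ l → a i l = 0 := by
    intro i hi h
    have h1 := haw i hi
    rw [hb i hi h, Finset.sum_eq_single l] at h1
    · exact (mul_eq_zero.1 h1).resolve_right hwl
    · intro j hj hjl
      rw [hZ.1 i (Finset.mem_erase.2 ⟨h, hi⟩) j (Finset.mem_erase.2 ⟨hjl, hj⟩), zero_mul]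
    · intro h
      exact absurd hl h
  have hbl : b l ≠ 0 := by
    intro h0
    have h1 := haw l hl
    rw [h0, Finset.sum_eq_single l] at h1
    · have hall : a l l = 0 := (mul_eq_zero.1 h1).resolve_right hwl
      have h2 := hap l hl l hl
      rw [if_pos rfl, Finset.sum_eq_zero] at h2
      · exact zero_ne_one h2
      · intro j hj
        by_cases hjl : j = l
        · rw [hjl, hall, zero_mul]
        · rw [ha l j, hail j hj hjl, zero_mul]
    · intro j hj hjl
      rw [ha l j, hail j hj hjl, zero_mul]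
    · intro h
      exact absurd hl h
  rw [Finset.sum_eq_single l]
  · exact mul_ne_zero hbl hwl
  · intro i hi hil
    rw [hb i hi hil, zero_mul]
  · intro h
    exact absurd hl h

theorem ns_dec_one (ha : ∀ i j, a i j = a j i) {F : Finset σ} (hF : F.Nonempty) {p : σ → σ → ℂ}
    (hp : ∀ i ∈ F, ∀ j ∈ F, p i j = p j i)
    (hap : ∀ l ∈ F, ∀ i ∈ F, ∑ j ∈ F, a l j * p j i = if l = i then 1 else 0)
    (ih : ∀ l ∈ F, ¬ ZF a b (F.erase l) → ∀ g, Dec SS (IL (qf a b) (F.erase l) g)) :
    Dec SS (IL (qf a b) F 1) := by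
  classical
  have hode := ns_ode a b ha hp hap
  set e := IL (qf a b) F 1 with he
  set c := ∑ i ∈ F, ∑ l ∈ F, p i l with hc
  set β := ∑ i ∈ F, b i * ∑ l ∈ F, p i l * b l with hβ
  set v : σ → ℂ := fun l => ∑ i ∈ F, p l i with hv
  set w : σ → ℂ := fun l => ∑ i ∈ F, p l i * b i with hw
  set hh : σ → LS := fun l => if ZF a b (F.erase l) then xx * ka (v l) else
    (xx * ka (v l) + ka (w l)) * IL (qf a b) (F.erase l) 1 with hhh
  set w0 : ℂ := ∑ l ∈ F, (if ZF a b (F.erase l) then w l else 0) with hw0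
  have hsum : ∑ l ∈ F, (xx * ka (v l) + ka (w l)) * IL (qf a b) (F.erase l) 1 = ∑ l ∈ F, hh l + ka w0 := by
    rw [hw0, map_sum, ← Finset.sum_add_distrib]
    refine Finset.sum_congr rfl ?_
    intro l hl
    simp only [hhh]
    split_ifs with hZ
    · rw [IL_const (qf a b) (ZF_LF a b hZ), LF_one, map_one, mul_one]
    · rw [map_zero, add_zero]
  have hdec : Dec SS (∑ l ∈ F, hh l) := by
    refine Dec.sum F _ ?_
    intro l hl
    simp only [hhh]
    split_ifs with hZ
    · exact dec_const_xx _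
    · rw [add_mul, mul_assoc]
      exact (dec_xmul (dec_kmul _ (ih l hl hZ 1))).add (dec_kmul _ (ih l hl hZ 1))
  refine Dec.ode (S := SS) (β := -β / 4) (w := -w0 / 4) (t := -(F.card : ℝ) / 2) (r := ka (c / 4))
    (h := ka (-1 / 4) * ∑ l ∈ F, hh l) (SS.R.algebraMap_mem _) ?_ (dec_kmul _ hdec) ?_ ?_
  · have : (0 : ℝ) < F.card := by exact_mod_cast hF.card_pos
    linarith
  · by_cases h0 : ∃ l ∈ F, ZF a b (F.erase l) ∧ w l ≠ 0
    · obtain ⟨l, hl, hZ, hwl⟩ := h0
      left
      have := ns_const a b ha hap hl hZ hwl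
      intro h1
      apply this
      have h2 : -β / 4 = 0 := h1
      have h3 : β = 0 := by linear_combination (-4) * h2
      exact h3
    · right
      push Not at h0
      have : w0 = 0 := by
        rw [hw0]
        refine Finset.sum_eq_zero ?_
        intro l hl
        split_ifs with hZ
        · exact h0 l hl hZ
        · rfl
      rw [this]
      simp
  · change DD e = (ka (-β / 4) + ka ((-(F.card : ℝ) / 2 : ℝ) : ℂ) * xx + xx ^ 2 * ka (c / 4)) * e +
      xx * (ka (-1 / 4) * ∑ l ∈ F, hh l) + ka (-w0 / 4) * xx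
    have h4 : (4 : LS) = ka 4 := (map_ofNat ka 4).symm
    have h44 : ka 4 * ka (1 / 4) = 1 := by
      rw [← map_mul]
      norm_num
    have e1 : ka (-β / 4) = - ka β * ka (1 / 4) := by
      rw [← map_neg, ← map_mul]
      congr 1
      ring
    have e2 : ka ((-(F.card : ℝ) / 2 : ℝ) : ℂ) = - 2 * ka (F.card : ℂ) * ka (1 / 4) := by
      rw [← map_ofNat ka 2, ← map_neg, ← map_mul, ← map_mul]
      congr 1
      push_cast
      ring
    have e3 : ka (c / 4) = ka c * ka (1 / 4) := by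
      rw [← map_mul]
      congr 1
      ring
    have e4 : ka (-1 / 4) = - ka (1 / 4) := by
      rw [← map_neg]
      congr 1
      ring
    have e5 : ka (-w0 / 4) = - ka w0 * ka (1 / 4) := by
      rw [← map_neg, ← map_mul]
      congr 1
      ring
    have hode' : 4 * DD e = (ka c * xx ^ 2 - 2 * ka (F.card : ℂ) * xx - ka β) * e -
        xx * (∑ l ∈ F, hh l + ka w0) := by
      rw [← hsum]
      exact hode
    rw [e1, e2, e3, e4, e5]
    have h45 : (4 : LS) * ka (1 / 4) = 1 := by rw [h4, h44]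
    linear_combination ka (1 / 4) * hode' - DD e * h45

theorem dec_half {y : LS} (h : Dec SS (2 * y)) : Dec SS y := by
  have h2 : y = ka (1 / 2) * (2 * y) := by
    rw [← mul_assoc, ← map_ofNat ka 2, ← map_mul]
    norm_num
  rw [h2]
  exact dec_kmul _ h

theorem IL_monomial (f : MvPolynomial σ ℂ) (F : Finset σ) (k : σ →₀ ℕ) (c : ℂ) :
    IL f F (monomial k c) = ka c * IL f F (monomial k 1) := by
  have h : (monomial k c : MvPolynomial σ ℂ) = C c * monomial k 1 := by
    rw [C_mul_monomial, mul_one]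
  rw [h, IL_C_mul]

theorem ns_dec (ha : ∀ i j, a i j = a j i) {F : Finset σ} (hF : F.Nonempty) {p : σ → σ → ℂ}
    (hp : ∀ i ∈ F, ∀ j ∈ F, p i j = p j i)
    (hap : ∀ l ∈ F, ∀ i ∈ F, ∑ j ∈ F, a l j * p j i = if l = i then 1 else 0)
    (ih : ∀ l ∈ F, ¬ ZF a b (F.erase l) → ∀ g, Dec SS (IL (qf a b) (F.erase l) g)) :
    ∀ g, Dec SS (IL (qf a b) F g) := by
  refine mono_ind (fun g => Dec SS (IL (qf a b) F g)) ?_ ?_
  · intro g h hg hh
    beta_reduce
    rw [map_add]
    exact hg.add hh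
  · intro k hk c
    by_cases hk0 : k = 0
    · subst hk0
      rw [IL_monomial]
      exact dec_kmul _ (ns_dec_one a b ha hF hp hap ih)
    · obtain ⟨i, hi0⟩ : ∃ i, k i ≠ 0 := by
        by_contra h
        push Not at h
        exact hk0 (Finsupp.ext h)
      have hmon : (monomial k c : MvPolynomial σ ℂ) = X i * monomial (k - Finsupp.single i 1) c := by
        rw [X, monomial_mul, one_mul]
        congr 2
        ext j
        rw [Finsupp.add_apply, Finsupp.tsub_apply, Finsupp.single_apply]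
        split_ifs with h2
        · subst h2
          omega
        · omega
      rw [hmon]
      by_cases hiF : i ∈ F
      · refine dec_half ?_
        rw [ns_mul a b ha hp hap hiF]
        refine Dec.sum F _ ?_
        intro l hl
        have hg : Dec SS (IL (qf a b) F (monomial (k - Finsupp.single i 1) c)) := hk _ (degree_sub hi0) c
        have hdg : Dec SS (IL (qf a b) F (pderiv l (monomial (k - Finsupp.single i 1) c))) := by
          refine pd_lower (P := fun g => Dec SS (IL (qf a b) F g)) (dec_zero_IL _ _) ?_ l c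
          intro k' hk' c'
          exact hk k' (hk'.trans (degree_sub hi0)) c'
        refine dec_kmul _ ?_
        exact (((dec_xmul hg).sub (dec_xmul hdg)).sub (dec_face a b (ih l hl) _)).sub (dec_kmul _ hg)
      · rw [IL_X_mul _ hiF]
        exact Dec.zero

/-! ### the singular case -/

theorem sg_parts (ha : ∀ i j, a i j = a j i) {F : Finset σ} {κ : σ → ℂ}
    (hκ : ∀ i ∈ F, ∑ j ∈ F, a i j * κ j = 0) (g : MvPolynomial σ ℂ) :
    ka (∑ l ∈ F, κ l * b l) * IL (qf a b) F g = ka (∑ l ∈ F, κ l) * (xx * IL (qf a b) F g) -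
      xx * ∑ l ∈ F, ka (κ l) * IL (qf a b) F (pderiv l g) -
      xx * ∑ l ∈ F, ka (κ l) * IL (qf a b) (F.erase l) g := by
  have h1 : ∀ l ∈ F, ka (κ l) * (2 * ∑ j ∈ F, ka (a l j) * IL (qf a b) F (X j * g) + ka (b l) * IL (qf a b) F g) =
      ka (κ l) * (xx * IL (qf a b) F g) - xx * (ka (κ l) * IL (qf a b) F (pderiv l g)) -
      xx * (ka (κ l) * IL (qf a b) (F.erase l) g) := by
    intro l hl
    rw [parts a b ha hl g]
    ring
  have h2 := Finset.sum_congr rfl h1
  rw [Finset.sum_sub_distrib, Finset.sum_sub_distrib, ← Finset.sum_mul, ← Finset.mul_sum, ← Finset.mul_sum,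
    ← map_sum] at h2
  rw [← h2]
  have h3 : ∑ l ∈ F, ka (κ l) * (2 * ∑ j ∈ F, ka (a l j) * IL (qf a b) F (X j * g) + ka (b l) * IL (qf a b) F g) =
      ∑ l ∈ F, ka (κ l) * (2 * ∑ j ∈ F, ka (a l j) * IL (qf a b) F (X j * g)) +
      ka (∑ l ∈ F, κ l * b l) * IL (qf a b) F g := by
    rw [map_sum, Finset.sum_mul, ← Finset.sum_add_distrib]
    refine Finset.sum_congr rfl ?_
    intro l _
    rw [map_mul ka]
    ring
  rw [h3]
  have h4 : ∑ l ∈ F, ka (κ l) * (2 * ∑ j ∈ F, ka (a l j) * IL (qf a b) F (X j * g)) = 0 := by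
    have h5 : ∀ l ∈ F, ka (κ l) * (2 * ∑ j ∈ F, ka (a l j) * IL (qf a b) F (X j * g)) =
        ∑ j ∈ F, 2 * (ka (a j l * κ l) * IL (qf a b) F (X j * g)) := by
      intro l _
      rw [Finset.mul_sum, Finset.mul_sum]
      refine Finset.sum_congr rfl ?_
      intro j _
      rw [map_mul ka, ha l j]
      ring
    rw [Finset.sum_congr rfl h5, Finset.sum_comm]
    refine Finset.sum_eq_zero ?_
    intro j hj
    rw [← Finset.mul_sum, ← Finset.sum_mul, ← map_sum, hκ j hj, map_zero, zero_mul, mul_zero]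
  rw [h4, zero_add]

theorem sg_face (ha : ∀ i j, a i j = a j i) {F : Finset σ} (hF : ¬ ZF a b F) {κ : σ → ℂ}
    (hκ : ∀ i ∈ F, ∑ j ∈ F, a i j * κ j = 0) (hb : ∑ l ∈ F, κ l * b l = 0) {l : σ} (hl : l ∈ F) (hκl : κ l ≠ 0) :
    ¬ ZF a b (F.erase l) := by
  intro hZ
  apply hF
  have hz : ∀ i ∈ F, i ≠ l → ∀ j ∈ F, j ≠ l → a i j = 0 := fun i hi h j hj h' =>
    hZ.1 i (Finset.mem_erase.2 ⟨h, hi⟩) j (Finset.mem_erase.2 ⟨h', hj⟩)
  have hil : ∀ i ∈ F, i ≠ l → a i l = 0 := by
    intro i hi h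
    have h1 := hκ i hi
    rw [Finset.sum_eq_single l] at h1
    · exact (mul_eq_zero.1 h1).resolve_right hκl
    · intro j hj hjl
      rw [hz i hi h j hj hjl, zero_mul]
    · intro h
      exact absurd hl h
  have hll : a l l = 0 := by
    have h1 := hκ l hl
    rw [Finset.sum_eq_single l] at h1
    · exact (mul_eq_zero.1 h1).resolve_right hκl
    · intro j hj hjl
      rw [ha l j, hil j hj hjl, zero_mul]
    · intro h
      exact absurd hl h
  have hbl : b l = 0 := by
    rw [Finset.sum_eq_single l] at hb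
    · exact (mul_eq_zero.1 hb).resolve_left hκl
    · intro j hj hjl
      rw [hZ.2 j (Finset.mem_erase.2 ⟨hjl, hj⟩), mul_zero]
    · intro h
      exact absurd hl h
  constructor
  · intro i hi j hj
    by_cases h : i = l
    · by_cases h' : j = l
      · rw [h, h', hll]
      · rw [h, ha l j, hil j hj h']
    · by_cases h' : j = l
      · rw [h', hil i hi h]
      · exact hz i hi h j hj h'
  · intro i hi
    by_cases h : i = l
    · rw [h, hbl]
    · exact hZ.2 i (Finset.mem_erase.2 ⟨h, hi⟩)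

theorem sg_dec (ha : ∀ i j, a i j = a j i) {F : Finset σ} (hF : ¬ ZF a b F) {κ : σ → ℂ}
    (hκ0 : ∃ i ∈ F, κ i ≠ 0) (hκ : ∀ i ∈ F, ∑ j ∈ F, a i j * κ j = 0)
    (ih : ∀ l ∈ F, ¬ ZF a b (F.erase l) → ∀ g, Dec SS (IL (qf a b) (F.erase l) g)) :
    ∀ g, Dec SS (IL (qf a b) F g) := by
  have hadd : ∀ g h, Dec SS (IL (qf a b) F g) → Dec SS (IL (qf a b) F h) → Dec SS (IL (qf a b) F (g + h)) := by
    intro g h hg hh
    rw [map_add]
    exact hg.add hh
  have hpd : ∀ k : σ →₀ ℕ, (∀ k' : σ →₀ ℕ, k'.degree < k.degree → ∀ c, Dec SS (IL (qf a b) F (monomial k' c))) →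
      ∀ c, Dec SS (∑ l ∈ F, ka (κ l) * IL (qf a b) F (pderiv l (monomial k c))) := by
    intro k hk c
    refine Dec.sum F _ ?_
    intro l _
    exact dec_kmul _ (pd_lower (P := fun g => Dec SS (IL (qf a b) F g)) (dec_zero_IL _ _) hk l c)
  by_cases hb : ∑ l ∈ F, κ l * b l = 0
  · have hface : ∀ g, Dec SS (∑ l ∈ F, ka (κ l) * IL (qf a b) (F.erase l) g) := by
      intro g
      refine Dec.sum F _ ?_
      intro l hl
      by_cases hκl : κ l = 0
      · rw [hκl, map_zero, zero_mul]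
        exact Dec.zero
      · exact dec_kmul _ (ih l hl (sg_face a b ha hF hκ hb hl hκl) g)
    by_cases ho : ∑ l ∈ F, κ l = 0
    · -- both zero
      have hrel : ∀ g, ∑ l ∈ F, ka (κ l) * IL (qf a b) F (pderiv l g) =
          - ∑ l ∈ F, ka (κ l) * IL (qf a b) (F.erase l) g := by
        intro g
        have h1 := sg_parts a b ha hκ g
        rw [hb, ho, map_zero, zero_mul, zero_mul, zero_sub] at h1
        have h2 : xx * (∑ l ∈ F, ka (κ l) * IL (qf a b) F (pderiv l g) +
            ∑ l ∈ F, ka (κ l) * IL (qf a b) (F.erase l) g) = 0 := by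
          linear_combination h1
        exact eq_neg_of_add_eq_zero_left ((mul_eq_zero.1 h2).resolve_left xx_ne)
      obtain ⟨i₀, hi₀, hκi⟩ := hκ0
      have hkey : ∀ g, ∀ s : ℕ, Dec SS (IL (qf a b) F (X i₀ ^ s * g)) := by
        refine mono_ind (fun g => ∀ s : ℕ, Dec SS (IL (qf a b) F (X i₀ ^ s * g))) ?_ ?_
        · intro g h hg hh s
          rw [mul_add, map_add]
          exact (hg s).add (hh s)
        · intro k hk c s
          set g : MvPolynomial σ ℂ := monomial k c with hg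
          have h1 := hrel (X i₀ ^ (s + 1) * g)
          have h2 : ∀ l ∈ F, ka (κ l) * IL (qf a b) F (pderiv l (X i₀ ^ (s + 1) * g)) =
              ka (κ l) * IL (qf a b) F (X i₀ ^ (s + 1) * pderiv l g) +
              (if l = i₀ then ka ((s + 1 : ℕ) * κ i₀) * IL (qf a b) F (X i₀ ^ s * g) else 0) := by
            intro l _
            have h3 : pderiv l (X i₀ ^ (s + 1) * g) = X i₀ ^ (s + 1) * pderiv l g +
                (if l = i₀ then C ((s + 1 : ℕ) : ℂ) * (X i₀ ^ s * g) else 0) := by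
              rw [pderiv_mul, pderiv_pow, pderiv_X, Pi.single_apply, Nat.add_sub_cancel]
              by_cases h : l = i₀
              · rw [if_pos h, if_pos h.symm, map_natCast]
                ring
              · rw [if_neg h, if_neg (fun h' => h h'.symm)]
                ring
            rw [h3, map_add, mul_add]
            by_cases h : l = i₀
            · rw [if_pos h, if_pos h, IL_C_mul, h, map_mul ka]
              ring
            · rw [if_neg h, if_neg h, map_zero, mul_zero]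
          rw [Finset.sum_congr rfl h2, Finset.sum_add_distrib, Finset.sum_ite_eq', if_pos hi₀] at h1
          have hne : ((s + 1 : ℕ) : ℂ) * κ i₀ ≠ 0 := mul_ne_zero (by exact_mod_cast Nat.succ_ne_zero s) hκi
          have h4 : IL (qf a b) F (X i₀ ^ s * g) = ka (((s + 1 : ℕ) : ℂ) * κ i₀)⁻¹ *
              (- ∑ l ∈ F, ka (κ l) * IL (qf a b) (F.erase l) (X i₀ ^ (s + 1) * g) -
                ∑ l ∈ F, ka (κ l) * IL (qf a b) F (X i₀ ^ (s + 1) * pderiv l g)) := by
            have h5 : ka (((s + 1 : ℕ) : ℂ) * κ i₀)⁻¹ * ka (((s + 1 : ℕ) : ℂ) * κ i₀) = 1 := by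
              rw [← map_mul, inv_mul_cancel₀ hne, map_one]
            linear_combination (ka (((s + 1 : ℕ) : ℂ) * κ i₀)⁻¹) * h1 - IL (qf a b) F (X i₀ ^ s * g) * h5
          rw [h4]
          refine dec_kmul _ ((hface _).neg.sub ?_)
          refine Dec.sum F _ ?_
          intro l _
          refine dec_kmul _ ?_
          refine pd_lower (P := fun g => ∀ s : ℕ, Dec SS (IL (qf a b) F (X i₀ ^ s * g))) ?_ hk l c (s + 1)
          intro s
          rw [mul_zero]
          exact dec_zero_IL _ _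
      intro g
      have := hkey g 0
      rwa [pow_zero, one_mul] at this
    · -- b·κ = 0, 1·κ ≠ 0
      refine mono_ind (fun g => Dec SS (IL (qf a b) F g)) hadd ?_
      intro k hk c
      beta_reduce
      have h1 := sg_parts a b ha hκ (monomial k c)
      rw [hb, map_zero, zero_mul] at h1
      have h2 : xx * (ka (∑ l ∈ F, κ l) * IL (qf a b) F (monomial k c) -
          (∑ l ∈ F, ka (κ l) * IL (qf a b) F (pderiv l (monomial k c)) +
          ∑ l ∈ F, ka (κ l) * IL (qf a b) (F.erase l) (monomial k c))) = 0 := by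
        linear_combination - h1
      have h3 := (mul_eq_zero.1 h2).resolve_left xx_ne
      have h4 : IL (qf a b) F (monomial k c) = ka (∑ l ∈ F, κ l)⁻¹ *
          (∑ l ∈ F, ka (κ l) * IL (qf a b) F (pderiv l (monomial k c)) +
          ∑ l ∈ F, ka (κ l) * IL (qf a b) (F.erase l) (monomial k c)) := by
        have h5 : ka (∑ l ∈ F, κ l)⁻¹ * ka (∑ l ∈ F, κ l) = 1 := by
          rw [← map_mul, inv_mul_cancel₀ ho, map_one]
        linear_combination ka (∑ l ∈ F, κ l)⁻¹ * h3 - IL (qf a b) F (monomial k c) * h5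
      rw [h4]
      exact dec_kmul _ ((hpd k hk c).add (hface _))
  · -- b·κ ≠ 0
    refine mono_ind (fun g => Dec SS (IL (qf a b) F g)) hadd ?_
    intro k hk c
    beta_reduce
    have h1 := sg_parts a b ha hκ (monomial k c)
    obtain ⟨r, hr, hr1⟩ := unit_mem (b := ∑ l ∈ F, κ l) hb
    have h4 : IL (qf a b) F (monomial k c) = r * (-(xx * ∑ l ∈ F, ka (κ l) * IL (qf a b) F (pderiv l (monomial k c))) -
        ∑ l ∈ F, ka (κ l) * (xx * IL (qf a b) (F.erase l) (monomial k c))) := by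
      have h5 : ∑ l ∈ F, ka (κ l) * (xx * IL (qf a b) (F.erase l) (monomial k c)) =
          xx * ∑ l ∈ F, ka (κ l) * IL (qf a b) (F.erase l) (monomial k c) := by
        rw [Finset.mul_sum]
        refine Finset.sum_congr rfl fun l _ => by ring
      rw [h5]
      linear_combination r * h1 - IL (qf a b) F (monomial k c) * hr1
    rw [h4]
    refine Dec.mul_left hr ((dec_xmul (hpd k hk c)).neg.sub ?_)
    refine Dec.sum F _ ?_
    intro l hl
    exact dec_kmul _ (dec_face a b (ih l hl) _)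

/-- All the generating functions of a quadratic polynomial on a face on which it does not vanish are decaying. -/
theorem quad_dec (ha : ∀ i j, a i j = a j i) : ∀ F : Finset σ, ¬ ZF a b F → ∀ g, Dec SS (IL (qf a b) F g) := by
  have key : ∀ n : ℕ, ∀ F : Finset σ, F.card = n → ¬ ZF a b F → ∀ g, Dec SS (IL (qf a b) F g) := by
    intro n
    induction n using Nat.strong_induction_on with
    | _ n ihn =>
      intro F hFn hF
      have ih : ∀ l ∈ F, ¬ ZF a b (F.erase l) → ∀ g, Dec SS (IL (qf a b) (F.erase l) g) := by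
        intro l hl
        exact ihn (F.erase l).card (by rw [← hFn]; exact Finset.card_erase_lt_of_mem hl) _ rfl
      have hne : F.Nonempty := by
        rw [Finset.nonempty_iff_ne_empty]
        rintro rfl
        exact hF ⟨fun i hi => absurd hi (Finset.notMem_empty i), fun i hi => absurd hi (Finset.notMem_empty i)⟩
      rcases dichotomy a ha F with ⟨κ, hκ0, hκ⟩ | ⟨p, hp, hap⟩
      · exact sg_dec a b ha hF hκ0 hκ ih
      · exact ns_dec a b ha hne hp hap ih
  intro F
  exact key F.card F rfl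

end Pool.Agent.FCQ
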